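import Mathlib
import Pool.Agent.V5helper62.TS.Main
import Pool.Agent.Y557.NF.CurveHt
set_option autoImplicit false

/-!
The truncated counting function relative to infinity and the zeros of a polynomial.
-/

namespace Pool.Agent.V5helper62.SS

open NumberField IsDedekindDomain Finset Pool.Agent.H691R3 Pool.Agent.TH876.Loc
open Polynomial Height
open Pool.Agent.N753.LS (fv_le_one fv_lt_one)
open Pool.Agent.TH876.KR (form localHeight localHeight_nonneg localHeight_pos_iff m2)
open Pool.Agent.Y730.QP (cnt log_Nv_le_localHeight term_nonneg)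
open Pool.Agent.Y557.NF (cnt_eq_V exists_V ne_of_form cnt_le_logHeight)
open Pool.Agent.V5helper62.TS

variable {k : Type} [Field k] [NumberField k]

/-- `x` is infinity or a zero of `Q` modulo `v` -/
def Hit (Q : k[X]) (v : Pr k) (x : k) : Prop := 1 < fv v x ∨ fv v (Q.eval x) < 1

open Classical in
/-- the truncated counting function relative to infinity and the zeros of `Q` -/
noncomputable def NQ (S : Set (Pr k)) (Q : k[X]) (x : k) : ℝ :=
  ∑ᶠ v : Pr k, if v ∉ S ∧ Hit Q v x then Real.log (Nv v) else 0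

theorem one_lt_finite (x : k) : {v : Pr k | 1 < fv v x}.Finite := by
  by_cases hx : x = 0
  · refine Set.Finite.subset Set.finite_empty ?_
    intro v hv
    rw [Set.mem_ofPred_eq, hx, map_zero] at hv
    exact absurd hv (by norm_num)
  · exact (fv_support_finite hx).subset fun _ hv => ne_of_gt hv

theorem lt_one_finite {x : k} (hx : x ≠ 0) : {v : Pr k | fv v x < 1}.Finite :=
  (fv_support_finite hx).subset fun _ hv => ne_of_lt hv

theorem hit_finite {Q : k[X]} {x : k} (hx : Q.eval x ≠ 0) : {v : Pr k | Hit Q v x}.Finite :=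
  ((one_lt_finite x).union (lt_one_finite hx)).subset fun _ hv => hv

open Classical in
theorem NQ_eq_sum (S : Set (Pr k)) {Q : k[X]} {x : k} (V : Finset (Pr k))
    (hV : ∀ v, Hit Q v x → v ∈ V) :
    NQ S Q x = ∑ v ∈ V, if v ∉ S ∧ Hit Q v x then Real.log (Nv v) else 0 := by
  unfold NQ
  refine finsum_eq_sum_of_support_subset _ ?_
  intro v hv
  rw [Function.mem_support] at hv
  by_contra hcon
  apply hv
  rw [if_neg]
  rintro ⟨-, h⟩
  exact hcon (hV v h)

theorem NQ_nonneg (S : Set (Pr k)) (Q : k[X]) (x : k) : 0 ≤ NQ S Q x := by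
  unfold NQ
  refine finsum_nonneg fun v => ?_
  split_ifs
  · exact logN_nonneg v
  · exact le_rfl

/-- the primes at which an element is small -/
theorem small_sum : ∃ C : ℝ, 0 ≤ C ∧ ∀ r : k, r ≠ 0 → ∃ W : Finset (Pr k),
    (∀ v, fv v r < 1 → v ∈ W) ∧ ∑ v ∈ W, Real.log (Nv v) ≤ logHeight₁ r + C := by
  obtain ⟨C, hC⟩ := cnt_le_logHeight (K := k) ∅ (fun _ : Fin 1 => ![0, 1])
  refine ⟨|C|, abs_nonneg _, fun r hr => ?_⟩
  have h1 : (![r, 1] : Fin 2 → k) ≠ 0 := by
    intro h
    have := congrFun h 1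
    exact one_ne_zero (α := k) this
  have h2 : ∀ i : Fin 1, form ((fun _ : Fin 1 => (![0, 1] : Fin 2 → k)) i) ![r, 1] ≠ 0 := by
    intro i
    unfold form
    show (0 : k) * 1 - 1 * r ≠ 0
    rw [zero_mul, one_mul, zero_sub]
    exact neg_ne_zero.2 hr
  obtain ⟨W, hW1, hW2⟩ := near_le_cnt ∅ h2 h1
  refine ⟨W, fun v hv => hW1 v (Set.notMem_empty _) ⟨0, ?_⟩, ?_⟩
  · rw [localHeight_pos_iff v (h2 0)]
    have e1 : form (![0, 1] : Fin 2 → k) ![r, 1] = -r := by
      unfold form
      show (0 : k) * 1 - 1 * r = -r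
      ring
    have e2 : m2 v (![0, 1] : Fin 2 → k) = 1 := by
      unfold m2
      show max (fv v 0) (fv v 1) = 1
      rw [map_zero, map_one]
      exact max_eq_right zero_le_one
    have e3 : m2 v (![r, 1] : Fin 2 → k) = 1 := by
      unfold m2
      show max (fv v r) (fv v 1) = 1
      rw [map_one]
      exact max_eq_right hv.le
    show fv v (form ![0, 1] ![r, 1]) < m2 v ![0, 1] * m2 v ![r, 1]
    rw [e1, e2, e3, (fv v).map_neg, one_mul]
    exact hv
  · have h3 := hC ![r, 1] h1 h2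
    rw [Nat.cast_one, one_mul, ← logHeight₁_eq_logHeight] at h3
    refine hW2.trans (h3.trans ?_)
    have := le_abs_self C
    linarith

/-- **comparison of two counting functions** -/
theorem NQ_le (T : Finset (Pr k)) : ∃ C : ℝ, 0 ≤ C ∧ ∀ (S : Set (Pr k)) (Q Q1 : k[X]) (x t r : k),
    Q.eval x ≠ 0 → Q1.eval t ≠ 0 → r ≠ 0 →
    (∀ v ∉ T, v ∉ S → Hit Q v x → Hit Q1 v t ∨ fv v r < 1) →
    NQ S Q x ≤ NQ S Q1 t + logHeight₁ r + C := by
  classical
  obtain ⟨C, hC0, hC⟩ := small_sum (k := k)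
  refine ⟨C + ∑ v ∈ T, Real.log (Nv v), by
    have : 0 ≤ ∑ v ∈ T, Real.log (Nv v) := Finset.sum_nonneg fun v _ => logN_nonneg v
    linarith, ?_⟩
  intro S Q Q1 x t r hx ht hr h
  obtain ⟨W, hW1, hW2⟩ := hC r hr
  obtain ⟨V, hV⟩ : ∃ V : Finset (Pr k), V = (hit_finite hx).toFinset ∪ (hit_finite ht).toFinset :=
    ⟨_, rfl⟩
  rw [NQ_eq_sum S V (fun v hv => by
      rw [hV, Finset.mem_union, Set.Finite.mem_toFinset]
      exact Or.inl hv),
    NQ_eq_sum S V (fun v hv => by
      rw [hV, Finset.mem_union, Set.Finite.mem_toFinset (hit_finite ht)]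
      exact Or.inr hv)]
  have h1 : ∀ v ∈ V, (if v ∉ S ∧ Hit Q v x then Real.log (Nv v) else 0) ≤
      (if v ∉ S ∧ Hit Q1 v t then Real.log (Nv v) else 0) +
        (if v ∈ W then Real.log (Nv v) else 0) + (if v ∈ T then Real.log (Nv v) else 0) := by
    intro v _
    have hN := logN_nonneg v
    have a1 : 0 ≤ (if v ∉ S ∧ Hit Q1 v t then Real.log (Nv v) else 0) := by
      split_ifs
      · exact hN
      · exact le_rfl
    have a2 : 0 ≤ (if v ∈ W then Real.log (Nv v) else 0) := by
      split_ifs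
      · exact hN
      · exact le_rfl
    have a3 : 0 ≤ (if v ∈ T then Real.log (Nv v) else 0) := by
      split_ifs
      · exact hN
      · exact le_rfl
    by_cases hv : v ∉ S ∧ Hit Q v x
    · rw [if_pos hv]
      by_cases hT : v ∈ T
      · rw [if_pos hT]
        linarith
      · rcases h v hT hv.1 hv.2 with h2 | h2
        · rw [if_pos (show v ∉ S ∧ Hit Q1 v t from ⟨hv.1, h2⟩)]
          linarith
        · rw [if_pos (hW1 v h2)]
          linarith
    · rw [if_neg hv]
      linarith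
  refine (Finset.sum_le_sum h1).trans ?_
  rw [Finset.sum_add_distrib, Finset.sum_add_distrib]
  have h2 : ∑ v ∈ V, (if v ∈ W then Real.log (Nv v) else 0) ≤ ∑ v ∈ W, Real.log (Nv v) := by
    rw [← Finset.sum_filter]
    refine Finset.sum_le_sum_of_subset_of_nonneg (fun v hv => (Finset.mem_filter.1 hv).2) ?_
    exact fun v _ _ => logN_nonneg v
  have h3 : ∑ v ∈ V, (if v ∈ T then Real.log (Nv v) else 0) ≤ ∑ v ∈ T, Real.log (Nv v) := by
    rw [← Finset.sum_filter]
    refine Finset.sum_le_sum_of_subset_of_nonneg (fun v hv => (Finset.mem_filter.1 hv).2) ?_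
    exact fun v _ _ => logN_nonneg v
  linarith

/-- the value of a polynomial is integral outside finitely many primes -/
theorem fv_bad (P : k[X]) : ∃ T : Finset (Pr k), ∀ v ∉ T, ∀ t : k, fv v t ≤ 1 →
    fv v (P.eval t) ≤ 1 := by
  obtain ⟨T, hT⟩ := exists_bad P
  exact ⟨T, fun v hv t ht => (fv_le_one v _).2 (hT v hv t ((fv_le_one v _).1 ht))⟩

/-- **divisibility and small values** -/
theorem hit_pull {Q1 R H : k[X]} {M : ℕ} (hd : H ∣ (Q1 * R) ^ M) : ∃ T : Finset (Pr k), ∀ v ∉ T,
    ∀ t : k, fv v t ≤ 1 → fv v (H.eval t) < 1 → Hit Q1 v t ∨ fv v (R.eval t) < 1 := by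
  obtain ⟨G, hG⟩ := hd
  obtain ⟨T, hT⟩ := fv_bad G
  refine ⟨T, fun v hv t ht h => ?_⟩
  by_contra hcon
  rw [not_or] at hcon
  obtain ⟨h1, h2⟩ := hcon
  unfold Hit at h1
  rw [not_or, not_lt, not_lt] at h1
  rw [not_lt] at h2
  have e := congrArg (eval t) hG
  rw [eval_pow, eval_mul, eval_mul] at e
  have h3 : (1 : ℝ) ≤ fv v ((Q1.eval t * R.eval t) ^ M) := by
    rw [map_pow, map_mul]
    exact one_le_pow₀ (one_le_mul_of_one_le_of_one_le h1.2 h2)
  rw [e, map_mul] at h3
  have h4 := hT v hv t ht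
  have h5 : fv v (H.eval t) * fv v (G.eval t) < 1 := by
    calc fv v (H.eval t) * fv v (G.eval t) ≤ fv v (H.eval t) * 1 :=
          mul_le_mul_of_nonneg_left h4 ((fv v).nonneg _)
      _ < 1 := by rw [mul_one]; exact h
  linarith

/-- the height of the value of a polynomial -/
theorem height_poly (R : k[X]) {d : ℕ} (hd : R.natDegree ≤ d) : ∃ C : ℝ, 0 ≤ C ∧ ∀ t : k,
    logHeight₁ (R.eval t) ≤ d * logHeight₁ t + C := by
  obtain ⟨C, hC⟩ := Pool.Agent.Y557.NF.curve_height_le (![R, 1] : Fin 2 → k[X]) (D := d) (by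
    intro i
    fin_cases i
    · exact hd
    · show (1 : k[X]).natDegree ≤ d
      rw [natDegree_one]
      exact Nat.zero_le _)
  refine ⟨|C|, abs_nonneg _, fun t => ?_⟩
  have h1 := hC t
  have e : (fun i => ((![R, 1] : Fin 2 → k[X]) i).eval t) = ![R.eval t, 1] := by
    funext i
    fin_cases i
    · rfl
    · exact eval_one
  rw [e, ← logHeight₁_eq_logHeight] at h1
  have := le_abs_self C
  linarith

/-- the height of the value of a rational function -/
theorem height_rat {A B : k[X]} (hco : IsCoprime A B) {D : ℕ} (hD1 : 1 ≤ D)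
    (hA : A.natDegree ≤ D) (hB : B.natDegree ≤ D) (hD : A.natDegree = D ∨ B.natDegree = D) :
    ∃ C : ℝ, 0 ≤ C ∧ ∀ t : k, B.eval t ≠ 0 →
      logHeight₁ (A.eval t / B.eval t) ≤ D * logHeight₁ t + C ∧
      D * logHeight₁ t ≤ logHeight₁ (A.eval t / B.eval t) + C := by
  have hP : ∀ i, ((![A, B] : Fin 2 → k[X]) i).natDegree ≤ D := by
    intro i
    fin_cases i
    · exact hA
    · exact hB
  have hA0 : ∀ P : k[X], P.natDegree = D → P ≠ 0 := by
    rintro P hPD rfl
    rw [natDegree_zero] at hPD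
    omega
  obtain ⟨C1, hC1⟩ := Pool.Agent.Y557.NF.curve_height_le (![A, B] : Fin 2 → k[X]) hP
  obtain ⟨C2, hC2⟩ := Pool.Agent.Y557.NF.le_curve_height (![A, B] : Fin 2 → k[X]) (by
      obtain ⟨u, v, huv⟩ := hco
      refine ⟨![u, v], ?_⟩
      rw [Fin.sum_univ_two]
      exact huv) hP (by
      rcases hD with h | h
      · exact ⟨0, h, hA0 A h⟩
      · exact ⟨1, h, hA0 B h⟩)
  refine ⟨|C1| + |C2|, by positivity, fun t ht => ?_⟩
  have e : Height.logHeight (fun i => ((![A, B] : Fin 2 → k[X]) i).eval t) =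
      logHeight₁ (A.eval t / B.eval t) := by
    rw [logHeight₁_eq_logHeight]
    have e1 : (fun i => ((![A, B] : Fin 2 → k[X]) i).eval t) =
        B.eval t • ![A.eval t / B.eval t, 1] := by
      funext i
      fin_cases i
      · show A.eval t = B.eval t * (A.eval t / B.eval t)
        field_simp
      · show B.eval t = B.eval t * 1
        rw [mul_one]
    rw [e1]
    exact logHeight_smul_eq_logHeight _ ht
  have h1 := hC1 t
  have h2 := hC2 t
  rw [e] at h1 h2
  have h3 := le_abs_self C1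
  have h4 := neg_abs_le C2
  have h5 := abs_nonneg C1
  have h6 := abs_nonneg C2
  constructor <;> linarith

end Pool.Agent.V5helper62.SS
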