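import Mathlib
import Pool.Agent.V5helper62.SS.NQ
import Pool.Agent.V5helper62.TS.Up
set_option autoImplicit false

/-!
The counting functions relative to finitely many points and relative to a polynomial.
-/

namespace Pool.Agent.V5helper62.SS

open NumberField IsDedekindDomain Finset Pool.Agent.H691R3 Pool.Agent.TH876.Loc
open Polynomial Height
open Pool.Agent.N753.LS (fv_le_one fv_lt_one)
open Pool.Agent.TH876.KR (form localHeight localHeight_nonneg localHeight_pos_iff m2)
open Pool.Agent.Y730.QP (cnt log_Nv_le_localHeight term_nonneg)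
open Pool.Agent.Y557.NF (cnt_eq_V exists_V ne_of_form cnt_le_logHeight)
open Pool.Agent.V5helper62.TS

variable {k : Type} [Field k] [NumberField k]

open Classical in
/-- the polynomial whose zeros are the finite points -/
noncomputable def poly {q : ℕ} (a : Fin q → Fin 2 → k) : k[X] :=
  ∏ l : Fin q, if a l 1 = 0 then 1 else X - C (a l 0 / a l 1)

theorem poly_eval {q : ℕ} (a : Fin q → Fin 2 → k) {x : k} (hx : ∀ l, form (a l) ![x, 1] ≠ 0) :
    (poly a).eval x ≠ 0 := by
  classical
  unfold poly
  rw [eval_prod]
  refine Finset.prod_ne_zero_iff.2 fun l _ => ?_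
  split_ifs with h
  · rw [eval_one]
    exact one_ne_zero
  · rw [eval_sub, eval_X, eval_C, sub_ne_zero]
    intro h1
    apply hx l
    unfold form
    show a l 0 * 1 - a l 1 * x = 0
    rw [h1]
    field_simp
    ring

theorem m2_one (v : Pr k) (x : k) : m2 v ![x, 1] = max (fv v x) 1 := by
  unfold m2
  show max (fv v x) (fv v 1) = _
  rw [map_one]

theorem form_one (a : Fin 2 → k) (x : k) : form a ![x, 1] = a 0 - a 1 * x := by
  unfold form
  show a 0 * 1 - a 1 * x = _
  rw [mul_one]

theorem vec_ne (x : k) : (![x, 1] : Fin 2 → k) ≠ 0 := by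
  intro h
  have := congrFun h 1
  exact one_ne_zero (α := k) this

/-- primes outside which everything is integral -/
theorem good_primes {q : ℕ} (a : Fin q → Fin 2 → k)
    (ha : ∀ i j, i ≠ j → a i 0 * a j 1 - a i 1 * a j 0 ≠ 0) (ha0 : ∀ l, a l ≠ 0) :
    ∃ T : Finset (Pr k), ∀ v ∉ T, (∀ l, m2 v (a l) = 1) ∧ (∀ l i, a l i ≠ 0 → fv v (a l i) = 1) ∧
      (∀ x : Fin 2 → k, (∀ l, form (a l) x ≠ 0) → ∀ i j, 0 < localHeight v (a i) x →
        0 < localHeight v (a j) x → i = j) := by
  classical
  obtain ⟨T, hT⟩ := one_near a ha ha0
  obtain ⟨T1, hT1⟩ : ∃ T1 : Finset (Pr k), T1 = Finset.univ.biUnion fun l =>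
    Finset.univ.biUnion fun i => if h : a l i = 0 then ∅ else (fv_support_finite h).toFinset :=
    ⟨_, rfl⟩
  refine ⟨T ∪ T1, fun v hv => ?_⟩
  rw [Finset.mem_union, not_or] at hv
  refine ⟨(hT v hv.1).1, ?_, (hT v hv.1).2⟩
  intro l i h
  by_contra hcon
  apply hv.2
  rw [hT1, Finset.mem_biUnion]
  refine ⟨l, Finset.mem_univ _, ?_⟩
  rw [Finset.mem_biUnion]
  refine ⟨i, Finset.mem_univ _, ?_⟩
  rw [dif_neg h, Set.Finite.mem_toFinset]
  exact hcon

/-- the upper bound -/
theorem cnt_le_NQ {q : ℕ} (a : Fin q → Fin 2 → k)
    (ha : ∀ i j, i ≠ j → a i 0 * a j 1 - a i 1 * a j 0 ≠ 0) (ha0 : ∀ l, a l ≠ 0) :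
    ∃ C : ℝ, 0 ≤ C ∧ ∀ (S : Set (Pr k)) (x : k), (∀ l, form (a l) ![x, 1] ≠ 0) →
      cnt S a ![x, 1] ≤ NQ S (poly a) x + C := by
  classical
  obtain ⟨T, hT⟩ := good_primes a ha ha0
  refine ⟨q * ∑ v ∈ T, Real.log (Nv v), mul_nonneg (Nat.cast_nonneg _)
    (Finset.sum_nonneg fun v _ => logN_nonneg v), fun S x hx => ?_⟩
  obtain ⟨V, hV⟩ := exists_V hx (vec_ne x)
  obtain ⟨V', hV'⟩ : ∃ V' : Finset (Pr k), V' = V ∪ (hit_finite (poly_eval a hx)).toFinset :=
    ⟨_, rfl⟩
  have hVV : ∀ v, v ∉ V' → ∀ i, localHeight v (a i) ![x, 1] = 0 := by
    intro v hv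
    rw [hV', Finset.mem_union, not_or] at hv
    exact hV v hv.1
  rw [cnt_eq_V S V' hVV, NQ_eq_sum S V' (fun v hv => by
    rw [hV', Finset.mem_union, Set.Finite.mem_toFinset]
    exact Or.inr hv)]
  have h1 : ∀ v ∈ V', (if v ∉ S then ∑ i : Fin q, min (localHeight v (a i) ![x, 1])
      (Real.log (Nv v)) else 0) ≤ (if v ∉ S ∧ Hit (poly a) v x then Real.log (Nv v) else 0) +
        (if v ∈ T then q * Real.log (Nv v) else 0) := by
    intro v _
    have hN := logN_nonneg v
    by_cases hS : v ∉ S
    · rw [if_pos hS]
      by_cases hvT : v ∈ T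
      · rw [if_pos hvT]
        have h2 : ∑ i : Fin q, min (localHeight v (a i) ![x, 1]) (Real.log (Nv v)) ≤
            q * Real.log (Nv v) := by
          refine (Finset.sum_le_sum (g := fun _ => Real.log (Nv v))
            fun i _ => min_le_right _ _).trans (le_of_eq ?_)
          rw [Finset.sum_const, Finset.card_univ, Fintype.card_fin, nsmul_eq_mul]
        have h3 : 0 ≤ (if v ∉ S ∧ Hit (poly a) v x then Real.log (Nv v) else 0) := by
          split_ifs
          · exact hN
          · exact le_rfl
        linarith
      · rw [if_neg hvT, add_zero]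
        obtain ⟨hT1, hT2, hT3⟩ := hT v hvT
        by_cases hnear : ∃ l, 0 < localHeight v (a l) ![x, 1]
        · obtain ⟨l, hl⟩ := hnear
          have hhit : Hit (poly a) v x := by
            rw [localHeight_pos_iff v (hx l), hT1, one_mul, m2_one, form_one] at hl
            unfold Hit
            by_cases hx1 : 1 < fv v x
            · exact Or.inl hx1
            right
            rw [not_lt] at hx1
            rw [max_eq_right hx1] at hl
            unfold poly
            rw [eval_prod, ← Finset.mul_prod_erase _ _ (Finset.mem_univ l), map_mul]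
            have h4 : a l 1 ≠ 0 := by
              intro h4
              rw [h4, zero_mul, sub_zero] at hl
              have h5 : a l 0 ≠ 0 := by
                intro h5
                apply ha0 l
                funext i
                fin_cases i
                · exact h5
                · exact h4
              rw [hT2 l 0 h5] at hl
              exact lt_irrefl _ hl
            have h6 : fv v (eval x (if a l 1 = 0 then 1 else X - C (a l 0 / a l 1))) < 1 := by
              rw [if_neg h4, eval_sub, eval_X, eval_C]
              have e : a l 0 - a l 1 * x = -(a l 1 * (x - a l 0 / a l 1)) := by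
                field_simp
                ring
              rw [e, (fv v).map_neg, map_mul, hT2 l 1 h4, one_mul] at hl
              exact hl
            have h7 : fv v (∏ j ∈ Finset.univ.erase l,
                eval x (if a j 1 = 0 then (1 : k[X]) else X - C (a j 0 / a j 1))) ≤ 1 := by
              rw [map_prod]
              refine Finset.prod_le_one (fun j _ => (fv v).nonneg _) fun j _ => ?_
              by_cases h8 : a j 1 = 0
              · rw [if_pos h8, eval_one, map_one]
              · rw [if_neg h8, eval_sub, eval_X, eval_C]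
                have h9 : fv v (a j 0 / a j 1) ≤ 1 := by
                  rw [map_div₀, hT2 j 1 h8, div_one]
                  by_cases h10 : a j 0 = 0
                  · rw [h10, map_zero]
                    exact zero_le_one
                  · exact (hT2 j 0 h10).le
                rw [sub_eq_add_neg]
                refine (fv_na v _ _).trans (max_le hx1 ?_)
                rw [(fv v).map_neg]
                exact h9
            exact mul_lt_one_of_nonneg_of_lt_one_left ((fv v).nonneg _) h6 h7
          rw [if_pos ⟨hS, hhit⟩]
          rw [Finset.sum_eq_single l]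
          · exact min_le_right _ _
          · intro i _ hil
            have h7 : localHeight v (a i) ![x, 1] = 0 := by
              by_contra hcon
              have h8 : 0 < localHeight v (a i) ![x, 1] :=
                lt_of_le_of_ne (localHeight_nonneg v (hx i)) (Ne.symm hcon)
              exact hil (hT3 _ hx i l h8 hl)
            rw [h7]
            exact min_eq_left hN
          · intro h
            exact absurd (Finset.mem_univ l) h
        · have h2 : ∑ i : Fin q, min (localHeight v (a i) ![x, 1]) (Real.log (Nv v)) ≤ 0 := by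
            refine Finset.sum_nonpos fun i _ => ?_
            have h7 : ¬ 0 < localHeight v (a i) ![x, 1] := fun h => hnear ⟨i, h⟩
            exact (min_le_left _ _).trans (not_lt.1 h7)
          refine h2.trans ?_
          split_ifs
          · exact hN
          · exact le_rfl
    · rw [if_neg hS, if_neg (fun h => hS h.1), zero_add]
      split_ifs
      · positivity
      · exact le_rfl
  refine (Finset.sum_le_sum h1).trans ?_
  rw [Finset.sum_add_distrib]
  refine add_le_add le_rfl ?_
  rw [Finset.mul_sum, ← Finset.sum_filter]
  refine Finset.sum_le_sum_of_subset_of_nonneg ?_ ?_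
  · intro w hw
    exact (Finset.mem_filter.1 hw).2
  · intro w _ _
    have := logN_nonneg w
    positivity

/-- the lower bound -/
theorem NQ_le_cnt {q : ℕ} (a : Fin q → Fin 2 → k)
    (ha : ∀ i j, i ≠ j → a i 0 * a j 1 - a i 1 * a j 0 ≠ 0) (ha0 : ∀ l, a l ≠ 0)
    (hinf : ∃ l, a l 1 = 0) :
    ∃ C : ℝ, 0 ≤ C ∧ ∀ (S : Set (Pr k)) (x : k), (∀ l, form (a l) ![x, 1] ≠ 0) →
      NQ S (poly a) x ≤ cnt S a ![x, 1] + C := by
  classical
  obtain ⟨T, hT⟩ := good_primes a ha ha0
  refine ⟨∑ v ∈ T, Real.log (Nv v), Finset.sum_nonneg fun v _ => logN_nonneg v, fun S x hx => ?_⟩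
  obtain ⟨W, hW1, hW2⟩ := near_le_cnt S hx (vec_ne x)
  rw [NQ_eq_sum S (hit_finite (poly_eval a hx)).toFinset (fun v hv => by
    rw [Set.Finite.mem_toFinset]
    exact hv)]
  have h1 : ∀ v ∈ (hit_finite (poly_eval a hx)).toFinset,
      (if v ∉ S ∧ Hit (poly a) v x then Real.log (Nv v) else 0) ≤
        (if v ∈ W then Real.log (Nv v) else 0) + (if v ∈ T then Real.log (Nv v) else 0) := by
    intro v _
    have hN := logN_nonneg v
    have a2 : 0 ≤ (if v ∈ W then Real.log (Nv v) else 0) := by
      split_ifs
      · exact hN
      · exact le_rfl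
    have a3 : 0 ≤ (if v ∈ T then Real.log (Nv v) else 0) := by
      split_ifs
      · exact hN
      · exact le_rfl
    by_cases hv : v ∉ S ∧ Hit (poly a) v x
    · rw [if_pos hv]
      by_cases hvT : v ∈ T
      · rw [if_pos hvT]
        linarith
      · have h2 : v ∈ W := by
          obtain ⟨hT1, hT2, hT3⟩ := hT v hvT
          refine hW1 v hv.1 ?_
          by_cases hx1 : 1 < fv v x
          · obtain ⟨l, hl⟩ := hinf
            refine ⟨l, ?_⟩
            rw [localHeight_pos_iff v (hx l), hT1, one_mul, m2_one, form_one, hl, zero_mul,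
              sub_zero]
            have h5 : a l 0 ≠ 0 := by
              intro h5
              apply ha0 l
              funext i
              fin_cases i
              · exact h5
              · exact hl
            rw [hT2 l 0 h5]
            exact lt_of_lt_of_le hx1 (le_max_left _ _)
          · have h3 : fv v ((poly a).eval x) < 1 := by
              rcases hv.2 with h | h
              · exact absurd h hx1
              · exact h
            rw [not_lt] at hx1
            by_contra hcon
            push Not at hcon
            unfold poly at h3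
            rw [eval_prod, map_prod] at h3
            have h4 : (1 : ℝ) ≤ ∏ l : Fin q,
                fv v (eval x (if a l 1 = 0 then (1 : k[X]) else X - C (a l 0 / a l 1))) := by
              refine Finset.prod_induction (fun l : Fin q => fv v (eval x (if a l 1 = 0 then
                (1 : k[X]) else X - C (a l 0 / a l 1)))) (fun r : ℝ => 1 ≤ r)
                (fun r s hr hs => one_le_mul_of_one_le_of_one_le hr hs) le_rfl ?_
              intro l _
              by_cases h8 : a l 1 = 0
              · rw [if_pos h8, eval_one, map_one]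
              · rw [if_neg h8, eval_sub, eval_X, eval_C]
                have h9 : ¬ 0 < localHeight v (a l) ![x, 1] := not_lt.2 (hcon l)
                rw [localHeight_pos_iff v (hx l), hT1, one_mul, m2_one, form_one, not_lt] at h9
                have h10 : (1 : ℝ) ≤ fv v (a l 0 - a l 1 * x) := (le_max_right _ _).trans h9
                have e : a l 0 - a l 1 * x = -(a l 1 * (x - a l 0 / a l 1)) := by
                  field_simp
                  ring
                rw [e, (fv v).map_neg, map_mul, hT2 l 1 h8, one_mul] at h10
                exact h10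
            linarith
        rw [if_pos h2]
        linarith
    · rw [if_neg hv]
      linarith
  refine (Finset.sum_le_sum h1).trans ?_
  rw [Finset.sum_add_distrib]
  refine add_le_add ((le_trans ?_ hW2)) ?_
  · rw [← Finset.sum_filter]
    refine Finset.sum_le_sum_of_subset_of_nonneg (fun v hv => (Finset.mem_filter.1 hv).2) ?_
    exact fun v _ _ => logN_nonneg v
  · rw [← Finset.sum_filter]
    refine Finset.sum_le_sum_of_subset_of_nonneg (fun v hv => (Finset.mem_filter.1 hv).2) ?_
    exact fun v _ _ => logN_nonneg v

end Pool.Agent.V5helper62.SS
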