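import Mathlib
set_option autoImplicit false

/-!
Rational functions are continuous for every absolute value.
-/

namespace Pool.Agent.V5helper62.SS

open Polynomial

variable {k : Type} [Field k]

/-- the function of degree four, ramified only over `0`, `1` and infinity, which maps these three
points to `0` -/
def phi (z : k) : k := 16 * z * (z - 1) ^ 2 / (z + 1) ^ 4

theorem phi_inv {z : k} (hz : z ≠ 0) : phi z⁻¹ = phi z := by
  unfold phi
  have e1 : z⁻¹ - 1 = (1 - z) / z := by field_simp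
  have e2 : z⁻¹ + 1 = (1 + z) / z := by field_simp
  rw [e1, e2]
  by_cases h : z + 1 = 0
  · have h' : 1 + z = 0 := by rw [add_comm]; exact h
    rw [h, h', zero_div]
    simp
  · have h' : 1 + z ≠ 0 := by rw [add_comm]; exact h
    field_simp
    ring

theorem poly_bdd (f : AbsoluteValue k ℝ) (P : k[X]) (r : ℝ) :
    ∃ C : ℝ, 0 ≤ C ∧ ∀ z, f z ≤ r → f (P.eval z) ≤ C := by
  induction P using Polynomial.induction_on' with
  | add p q hp hq =>
    obtain ⟨C1, h1, hp⟩ := hp
    obtain ⟨C2, h2, hq⟩ := hq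
    refine ⟨C1 + C2, by linarith, fun z hz => ?_⟩
    rw [eval_add]
    exact (f.add_le _ _).trans (add_le_add (hp z hz) (hq z hz))
  | monomial n a =>
    refine ⟨f a * |r| ^ n, mul_nonneg (f.nonneg _) (by positivity), fun z hz => ?_⟩
    rw [eval_monomial, map_mul, map_pow]
    refine mul_le_mul_of_nonneg_left (pow_le_pow_left₀ (f.nonneg _) ?_ _) (f.nonneg _)
    exact hz.trans (le_abs_self r)

theorem poly_cont (f : AbsoluteValue k ℝ) (P : k[X]) (c : k) :
    ∃ C : ℝ, 0 < C ∧ ∀ z, f (z - c) ≤ 1 → f (P.eval z - P.eval c) ≤ C * f (z - c) := by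
  obtain ⟨R, hR⟩ := X_sub_C_dvd_sub_C_eval (p := P) (a := c)
  obtain ⟨C, hC, h⟩ := poly_bdd f R (f c + 1)
  refine ⟨C + 1, by linarith, fun z hz => ?_⟩
  have e : P.eval z - P.eval c = (z - c) * R.eval z := by
    have := congrArg (eval z) hR
    rw [eval_sub, eval_C, eval_mul, eval_sub, eval_X, eval_C] at this
    exact this
  have h1 : f z ≤ f c + 1 := by
    have : z = c + (z - c) := by ring
    calc f z = f (c + (z - c)) := by rw [← this]
      _ ≤ f c + f (z - c) := f.add_le _ _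
      _ ≤ f c + 1 := by linarith
  rw [e, map_mul, mul_comm]
  refine mul_le_mul_of_nonneg_right ((h z h1).trans (by linarith)) (f.nonneg _)

theorem rat_near (f : AbsoluteValue k ℝ) {A B : k[X]} {c : k} (hA : A.eval c = 0)
    (hB : B.eval c ≠ 0) {δ : ℝ} (hδ : 0 < δ) :
    ∃ η : ℝ, 0 < η ∧ ∀ z, f (z - c) ≤ η → B.eval z ≠ 0 ∧ f (A.eval z / B.eval z) ≤ δ := by
  obtain ⟨C1, hC1, h1⟩ := poly_cont f A c
  obtain ⟨C2, hC2, h2⟩ := poly_cont f B c
  have hb : 0 < f (B.eval c) := f.pos hB
  refine ⟨min 1 (min (f (B.eval c) / (2 * C2)) (δ * f (B.eval c) / (2 * C1))), by positivity, ?_⟩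
  intro z hz
  have hz1 := hz.trans (min_le_left _ _)
  have hz2 := (hz.trans (min_le_right _ _)).trans (min_le_left _ _)
  have hz3 := (hz.trans (min_le_right _ _)).trans (min_le_right _ _)
  have h3 := h1 z hz1
  have h4 := h2 z hz1
  rw [hA, sub_zero] at h3
  rw [le_div_iff₀ (by positivity)] at hz2 hz3
  have h5 : f (B.eval c) / 2 ≤ f (B.eval z) := by
    have e : B.eval c = B.eval z + -(B.eval z - B.eval c) := by ring
    have h6 : f (B.eval c) ≤ f (B.eval z) + f (B.eval z - B.eval c) := by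
      conv_lhs => rw [e]
      refine (f.add_le _ _).trans ?_
      rw [f.map_neg]
    nlinarith
  have h6 : 0 < f (B.eval z) := by linarith
  refine ⟨f.ne_zero_iff.1 h6.ne', ?_⟩
  rw [map_div₀, div_le_iff₀ h6]
  nlinarith

/-- the combination of `phi` and `A / B` near the three points -/
theorem all_near [CharZero k] (f : AbsoluteValue k ℝ) {A B : k[X]} (hA : A.eval 0 = 0)
    (hB : B.eval 0 ≠ 0) {δ : ℝ} (hδ : 0 < δ) :
    ∃ η : ℝ, 0 < η ∧ ∀ z, z ≠ 0 → (f z ≤ η ∨ 1 / η ≤ f z ∨ f (z - 1) ≤ η) →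
      f (A.eval (phi z) / B.eval (phi z)) ≤ δ := by
  obtain ⟨η1, hη1, h1⟩ := rat_near f hA hB hδ
  have h2 : (1 : k) + 1 ≠ 0 := by
    norm_num
  obtain ⟨η2, hη2, h3⟩ := rat_near f (A := C 16 * X * (X - 1) ^ 2) (B := (X + 1) ^ 4) (c := 0)
    (by simp) (by simp) hη1
  obtain ⟨η3, hη3, h4⟩ := rat_near f (A := C 16 * X * (X - 1) ^ 2) (B := (X + 1) ^ 4) (c := 1)
    (by simp) (by
      simp only [eval_pow, eval_add, eval_X, eval_one]
      exact pow_ne_zero _ h2) hη1
  have he : ∀ z : k, (C 16 * X * (X - 1) ^ 2 : k[X]).eval z / ((X + 1) ^ 4 : k[X]).eval z =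
      phi z := by
    intro z
    unfold phi
    simp
  refine ⟨min η2 η3, by positivity, fun z hz h => ?_⟩
  have key : f (phi z) ≤ η1 := by
    rcases h with h | h | h
    · rw [← he]
      refine (h3 z ?_).2
      rw [sub_zero]
      exact h.trans (min_le_left _ _)
    · rw [← phi_inv hz, ← he]
      refine (h3 _ ?_).2
      rw [sub_zero, map_inv₀]
      have h5 : 0 < f z := f.pos hz
      have h6 : 0 < min η2 η3 := by positivity
      have h7 : (f z)⁻¹ ≤ min η2 η3 := by
        rw [one_div] at h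
        exact (inv_le_comm₀ h6 h5).1 h
      exact h7.trans (min_le_left _ _)
    · rw [← he]
      exact (h4 z (h.trans (min_le_right _ _))).2
  refine (h1 _ ?_).2
  rw [sub_zero]
  exact key

end Pool.Agent.V5helper62.SS
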