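import Mathlib
import Pool.Agent.V5helper62.SS.Cnt
import Pool.Agent.V5helper62.SS.Near
set_option autoImplicit false

/-!
The counting function and maps ramified only over the three points.
-/

namespace Pool.Agent.V5helper62.SS

open NumberField IsDedekindDomain Finset Pool.Agent.H691R3 Pool.Agent.TH876.Loc
open Polynomial Height
open Pool.Agent.V5helper62.TS

section rest

variable {F : Type} [Field F] [CharZero F]

theorem multiset_dvd_pow {s : Multiset F[X]} {Q : F[X]} (h : ∀ π ∈ s, π ∣ Q) :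
    s.prod ∣ Q ^ Multiset.card s := by
  induction s using Multiset.induction_on with
  | empty => simp
  | cons π s ih =>
    rw [Multiset.prod_cons, Multiset.card_cons, pow_succ, mul_comm (Q ^ _)]
    exact mul_dvd_mul (h π (Multiset.mem_cons_self π s))
      (ih fun ρ hρ => h ρ (Multiset.mem_cons_of_mem hρ))

/-- the part of the radical prime to `Q1` -/
theorem exists_rest {P : F[X]} (Q1 : F[X]) (hP : P ≠ 0) : ∃ (R : F[X]) (M : ℕ),
    P ∣ (Q1 * R) ^ M ∧ R ∣ P ∧
      R.natDegree ≤ {z : AlgebraicClosure F | aeval z P = 0 ∧ aeval z Q1 ≠ 0}.ncard := by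
  classical
  obtain ⟨s, hs⟩ : ∃ s : Finset F[X], s =
    (UniqueFactorizationMonoid.normalizedFactors P).toFinset.filter fun π => ¬ π ∣ Q1 := ⟨_, rfl⟩
  have hmem : ∀ π, π ∈ s ↔ π ∈ UniqueFactorizationMonoid.normalizedFactors P ∧ ¬ π ∣ Q1 := by
    intro π
    rw [hs, Finset.mem_filter, Multiset.mem_toFinset]
  have hirr : ∀ π ∈ s, Irreducible π := fun π hπ =>
    UniqueFactorizationMonoid.irreducible_of_normalized_factor π ((hmem π).1 hπ).1
  have hmon : ∀ π ∈ s, π.Monic := by
    intro π hπ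
    have h1 := UniqueFactorizationMonoid.normalize_normalized_factor π ((hmem π).1 hπ).1
    rw [← h1]
    exact Polynomial.monic_normalize (hirr π hπ).ne_zero
  have hco : ∀ π ∈ s, ∀ ρ ∈ s, π ≠ ρ → IsCoprime π ρ := by
    intro π hπ ρ hρ hne
    by_contra hcon
    rw [(hirr π hπ).coprime_iff_not_dvd, not_not] at hcon
    exact hne (Polynomial.eq_of_monic_of_associated (hmon π hπ) (hmon ρ hρ)
      ((hirr π hπ).associated_of_dvd (hirr ρ hρ) hcon))
  have hsq : Squarefree (∏ π ∈ s, π) := by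
    refine Finset.squarefree_prod_of_pairwise_isCoprime ?_ fun π hπ => (hirr π hπ).squarefree
    intro π hπ ρ hρ hne
    exact (hco π hπ ρ hρ hne).isRelPrime
  have hdvd : (∏ π ∈ s, π) ∣ P := by
    refine Finset.prod_dvd_of_coprime ?_ ?_
    · intro π hπ ρ hρ hne
      exact hco π hπ ρ hρ hne
    · intro π hπ
      exact UniqueFactorizationMonoid.dvd_of_mem_normalizedFactors ((hmem π).1 hπ).1
  refine ⟨∏ π ∈ s, π, Multiset.card (UniqueFactorizationMonoid.normalizedFactors P), ?_, hdvd, ?_⟩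
  · refine (UniqueFactorizationMonoid.prod_normalizedFactors hP).symm.dvd.trans
      (multiset_dvd_pow ?_)
    intro π hπ
    by_cases h : π ∣ Q1
    · exact h.mul_right _
    · exact (Finset.dvd_prod_of_mem _ ((hmem π).2 ⟨hπ, h⟩)).mul_left _
  · have hsep : (∏ π ∈ s, π).Separable := PerfectField.separable_iff_squarefree.2 hsq
    have h0 : (∏ π ∈ s, π) ≠ 0 := hsq.ne_zero
    have h1 := card_rootSet_eq_natDegree (K := AlgebraicClosure F) hsep
      (IsAlgClosed.splits _)
    rw [← h1, ← Nat.card_eq_fintype_card, Nat.card_coe_set_eq]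
    refine Set.ncard_le_ncard ?_ ?_
    · intro z hz
      rw [mem_rootSet] at hz
      have hz1 := hz.2
      rw [map_prod, Finset.prod_eq_zero_iff] at hz1
      obtain ⟨π, hπ, hzπ⟩ := hz1
      refine ⟨?_, fun hQ => ?_⟩
      · obtain ⟨G, hG⟩ := hdvd
        rw [hG, map_mul, hz.2, zero_mul]
      · apply ((hmem π).1 hπ).2
        have h2 : minpoly F z ∣ π := minpoly.dvd F z hzπ
        have hint : IsIntegral F z := Algebra.IsIntegral.isIntegral z
        have h3 := (minpoly.irreducible hint).associated_of_dvd (hirr π hπ) h2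
        exact h3.symm.dvd.trans (minpoly.dvd F z hQ)
    · refine (P.rootSet_finite (AlgebraicClosure F)).subset ?_
      rintro z ⟨hz, -⟩
      rw [mem_rootSet]
      exact ⟨hP, hz⟩

theorem ncard_le_degree {R : F[X]} (hR : R ≠ 0) (s : Set (AlgebraicClosure F))
    (h : ∀ z ∈ s, aeval z R = 0) : s.ncard ≤ R.natDegree := by
  refine le_trans ?_ (ncard_rootSet_le R (AlgebraicClosure F))
  refine Set.ncard_le_ncard ?_ (R.rootSet_finite _)
  intro z hz
  rw [mem_rootSet]
  exact ⟨hR, h z hz⟩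

end rest

variable {k : Type} [Field k] [NumberField k]

/-- **the core of the comparison** -/
theorem pull_core {Q Q1 H : k[X]} {d : ℕ} (F : k → k) (hH : H ≠ 0)
    (hdeg : {z : AlgebraicClosure k | aeval z H = 0 ∧ aeval z Q1 ≠ 0}.ncard ≤ d)
    {T : Finset (Pr k)} (hT : ∀ v ∉ T, ∀ t, fv v t ≤ 1 → H.eval t ≠ 0 → Hit Q v (F t) →
      fv v (H.eval t) < 1) :
    ∃ C : ℝ, 0 ≤ C ∧ ∀ (S : Set (Pr k)) (t : k), H.eval t ≠ 0 → Q1.eval t ≠ 0 →
      Q.eval (F t) ≠ 0 → NQ S Q (F t) ≤ NQ S Q1 t + d * logHeight₁ t + C := by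
  classical
  obtain ⟨R, M, hR1, hR2, hR3⟩ := exists_rest Q1 hH
  obtain ⟨T', hT'⟩ := hit_pull hR1
  obtain ⟨C1, hC1, h1⟩ := NQ_le (k := k) (T ∪ T')
  obtain ⟨C2, hC2, h2⟩ := height_poly R (hR3.trans hdeg)
  refine ⟨C1 + C2, by linarith, fun S t ht ht1 hx => ?_⟩
  have hRt : R.eval t ≠ 0 := by
    intro h
    obtain ⟨G, hG⟩ := hR2
    apply ht
    rw [hG, eval_mul, h, zero_mul]
  have h3 := h1 S Q Q1 (F t) t (R.eval t) hx ht1 hRt (by
    intro v hv _ hhit
    rw [Finset.mem_union, not_or] at hv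
    by_cases hvt : 1 < fv v t
    · exact Or.inl (Or.inl hvt)
    · rw [not_lt] at hvt
      exact hT' v hv.2 t hvt (hT v hv.1 t hvt ht hhit))
  have h4 := h2 t
  linarith

/-- the three points -/
noncomputable def three : k[X] := X * (X - 1)

theorem three_eval (x : k) : (three : k[X]).eval x = x * (x - 1) := by
  unfold three
  simp

theorem three_ne {x : k} : (three : k[X]).eval x ≠ 0 ↔ x ≠ 0 ∧ x ≠ 1 := by
  rw [three_eval, mul_ne_zero_iff, sub_ne_zero]

/-- **rational functions** -/
theorem pull_rat {A B : k[X]} {D : ℕ} (hH : A * B * (A - B) ≠ 0)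
    (hdeg : {z : AlgebraicClosure k | z ≠ 0 ∧ z ≠ 1 ∧ aeval z (A * B * (A - B)) = 0}.ncard ≤ D) :
    ∃ C : ℝ, 0 ≤ C ∧ ∀ (S : Set (Pr k)) (t : k), t ≠ 0 → t ≠ 1 → A.eval t ≠ 0 → B.eval t ≠ 0 →
      A.eval t ≠ B.eval t →
      NQ S three (A.eval t / B.eval t) ≤ NQ S three t + D * logHeight₁ t + C := by
  classical
  obtain ⟨T1, hT1⟩ := fv_bad A
  obtain ⟨T2, hT2⟩ := fv_bad B
  obtain ⟨C, hC0, hC⟩ := pull_core (Q := three) (Q1 := three) (H := A * B * (A - B)) (d := D)
    (fun t => A.eval t / B.eval t) hH (by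
      have e : {z : AlgebraicClosure k | aeval z (A * B * (A - B)) = 0 ∧
          aeval z (three : k[X]) ≠ 0} =
          {z : AlgebraicClosure k | z ≠ 0 ∧ z ≠ 1 ∧ aeval z (A * B * (A - B)) = 0} := by
        ext z
        have h1 : aeval z (three : k[X]) = z * (z - 1) := by
          unfold three
          rw [map_mul, map_sub, aeval_X, map_one]
        show (aeval z (A * B * (A - B)) = 0 ∧ aeval z (three : k[X]) ≠ 0) ↔
          (z ≠ 0 ∧ z ≠ 1 ∧ aeval z (A * B * (A - B)) = 0)
        rw [h1, mul_ne_zero_iff, sub_ne_zero]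
        tauto
      rw [e]
      exact hdeg) (T := T1 ∪ T2) (by
      intro v hv t ht hHt hhit
      rw [Finset.mem_union, not_or] at hv
      have hA := hT1 v hv.1 t ht
      have hB := hT2 v hv.2 t ht
      rw [eval_mul, eval_mul, eval_sub] at hHt ⊢
      have hB0 : B.eval t ≠ 0 := fun h => hHt (by rw [h, mul_zero, zero_mul])
      have hBp : 0 < fv v (B.eval t) := (fv v).pos hB0
      have hAB : fv v (A.eval t - B.eval t) ≤ 1 := by
        rw [sub_eq_add_neg]
        refine (fv_na v _ _).trans (max_le hA ?_)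
        rw [(fv v).map_neg]
        exact hB
      have n1 := (fv v).nonneg (A.eval t)
      have n2 := (fv v).nonneg (B.eval t)
      have n3 := (fv v).nonneg (A.eval t - B.eval t)
      rw [map_mul, map_mul]
      have hprod : ∀ a b c : ℝ, 0 ≤ a → 0 ≤ b → 0 ≤ c → a ≤ 1 → b ≤ 1 → c ≤ 1 →
          (a < 1 ∨ b < 1 ∨ c < 1) → a * b * c < 1 := by
        intro a b c ha hb hc ha1 hb1 hc1 h
        rcases h with h | h | h
        · have : a * b < 1 := mul_lt_one_of_nonneg_of_lt_one_left ha h hb1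
          exact mul_lt_one_of_nonneg_of_lt_one_left (mul_nonneg ha hb) this hc1
        · have : a * b < 1 := by
            rw [mul_comm]
            exact mul_lt_one_of_nonneg_of_lt_one_left hb h ha1
          exact mul_lt_one_of_nonneg_of_lt_one_left (mul_nonneg ha hb) this hc1
        · rw [mul_comm]
          exact mul_lt_one_of_nonneg_of_lt_one_left hc h (mul_le_one₀ ha1 hb hb1)
      refine hprod _ _ _ n1 n2 n3 hA hB hAB ?_
      unfold Hit at hhit
      rw [three_eval, map_mul, map_div₀] at hhit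
      rcases hhit with h | h
      · right
        left
        rw [one_lt_div hBp] at h
        linarith
      · by_contra hcon
        push Not at hcon
        obtain ⟨g1, g2, g3⟩ := hcon
        have e1 : fv v (A.eval t) = 1 := le_antisymm hA g1
        have e2 : fv v (B.eval t) = 1 := le_antisymm hB g2
        have e3 : fv v (A.eval t - B.eval t) = 1 := le_antisymm hAB g3
        have e4 : A.eval t / B.eval t - 1 = (A.eval t - B.eval t) / B.eval t := by
          field_simp
        rw [e4, map_div₀, e1, e2, e3] at h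
        norm_num at h)
  refine ⟨C, hC0, fun S t ht0 ht1 hA hB hAB => ?_⟩
  refine hC S t ?_ (three_ne.2 ⟨ht0, ht1⟩) ?_
  · rw [eval_mul, eval_mul, eval_sub]
    exact mul_ne_zero (mul_ne_zero hA hB) (sub_ne_zero.2 hAB)
  · rw [three_ne]
    refine ⟨div_ne_zero hA hB, ?_⟩
    intro h
    rw [div_eq_one_iff_eq hB] at h
    exact hAB h

/-- power maps -/
theorem pull_pow {m : ℕ} (hm : 1 ≤ m) : ∃ C : ℝ, 0 ≤ C ∧ ∀ (S : Set (Pr k)) (t : k),
    t ≠ 0 → t ≠ 1 → t ^ m ≠ 1 →
      NQ S three (t ^ m) ≤ NQ S three t + (m - 1 : ℕ) * logHeight₁ t + C := by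
  have hne : (X : k[X]) ^ m - 1 ≠ 0 := by
    intro h
    have := congrArg (eval 0) h
    simp [show m ≠ 0 by omega] at this
  obtain ⟨C, hC0, hC⟩ := pull_rat (k := k) (A := X ^ m) (B := 1) (D := m - 1) (by
      rw [mul_one]
      exact mul_ne_zero (pow_ne_zero _ X_ne_zero) hne) (by
      have hg : (∑ i ∈ range m, (X : k[X]) ^ i) ≠ 0 := by
        intro h
        have := congrArg (eval 0) h
        rw [eval_finsetSum, Finset.sum_eq_single 0] at this
        · simp at this
        · intro i _ hi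
          simp [hi]
        · intro h0
          rw [Finset.mem_range] at h0
          omega
      refine (ncard_le_degree hg _ ?_).trans ?_
      · rintro z ⟨hz0, hz1, hz⟩
        rw [mul_one, map_mul, map_sub, map_pow, aeval_X, map_one] at hz
        have h1 := (mul_eq_zero.1 hz).resolve_left (pow_ne_zero _ hz0)
        have h2 := mul_geom_sum z m
        rw [h1, mul_eq_zero] at h2
        have h3 := h2.resolve_left (sub_ne_zero.2 hz1)
        rw [map_sum]
        simp only [map_pow, aeval_X]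
        exact h3
      · refine natDegree_sum_le_of_forall_le _ _ fun i hi => ?_
        rw [Finset.mem_range] at hi
        rw [natDegree_X_pow]
        omega)
  refine ⟨C, hC0, fun S t ht0 ht1 htm => ?_⟩
  have h := hC S t ht0 ht1 (by rw [eval_pow, eval_X]; exact pow_ne_zero _ ht0)
    (by rw [eval_one]; exact one_ne_zero) (by rw [eval_pow, eval_X, eval_one]; exact htm)
  rw [eval_pow, eval_X, eval_one, div_one] at h
  exact h

/-- the map `phi` -/
theorem pull_phi : ∃ C : ℝ, 0 ≤ C ∧ ∀ (S : Set (Pr k)) (t : k),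
    t ≠ 0 → t ≠ 1 → t + 1 ≠ 0 → phi t ≠ 1 →
      NQ S three (phi t) ≤ NQ S three t + 3 * logHeight₁ t + C := by
  have h16 : (16 : k) ≠ 0 := by norm_num
  have hid : ∀ {R : Type} [CommRing R] (z : R), 16 * z * (z - 1) ^ 2 - (z + 1) ^ 4 =
      -(z ^ 2 - 6 * z + 1) ^ 2 := by
    intro R _ z
    ring
  have hq : (X ^ 2 - C 6 * X + 1 : k[X]) ≠ 0 := by
    intro h
    have := congrArg (eval 0) h
    simp at this
  have h1 : (X + 1 : k[X]) ≠ 0 := by
    intro h
    have := congrArg (eval 0) h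
    simp at this
  have hdeg1 : (X + 1 : k[X]).natDegree ≤ 1 := by compute_degree
  have hdeg2 : (X ^ 2 - C 6 * X + 1 : k[X]).natDegree ≤ 2 := by compute_degree
  have hA : (C 16 * X * (X - 1) ^ 2 : k[X]) ≠ 0 := by
    intro h
    have := congrArg (eval (-1)) h
    simp only [eval_mul, eval_C, eval_X, eval_pow, eval_sub, eval_one, eval_zero] at this
    norm_num at this
  have hAB : (C 16 * X * (X - 1) ^ 2 - (X + 1) ^ 4 : k[X]) ≠ 0 := by
    intro h
    have := congrArg (eval 0) h
    simp at this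
  obtain ⟨C', hC0, hC⟩ := pull_rat (k := k) (A := C 16 * X * (X - 1) ^ 2) (B := (X + 1) ^ 4)
    (D := 3) (mul_ne_zero (mul_ne_zero hA (pow_ne_zero _ h1)) hAB) (by
      refine (ncard_le_degree (mul_ne_zero h1 hq) _ ?_).trans (natDegree_mul_le.trans (by omega))
      rintro z ⟨hz0, hz1, hz⟩
      simp only [map_mul, map_sub, map_pow, aeval_X, map_one, map_add, map_ofNat] at hz ⊢
      rw [hid z] at hz
      rcases mul_eq_zero.1 hz with hz | hz
      · rcases mul_eq_zero.1 hz with hz | hz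
        · exfalso
          have h2 : (16 : AlgebraicClosure k) ≠ 0 := by norm_num
          exact mul_ne_zero (mul_ne_zero h2 hz0) (pow_ne_zero _ (sub_ne_zero.2 hz1)) hz
        · rw [pow_eq_zero_iff (by norm_num)] at hz
          rw [hz, zero_mul]
      · rw [neg_eq_zero, pow_eq_zero_iff (by norm_num)] at hz
        rw [hz, mul_zero])
  refine ⟨C', hC0, fun S t ht0 ht1 ht2 ht3 => ?_⟩
  have e : (C 16 * X * (X - 1) ^ 2 : k[X]).eval t / ((X + 1) ^ 4 : k[X]).eval t = phi t := by
    unfold phi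
    simp
  have e1 : (C 16 * X * (X - 1) ^ 2 : k[X]).eval t = 16 * t * (t - 1) ^ 2 := by simp
  have e2 : ((X + 1) ^ 4 : k[X]).eval t = (t + 1) ^ 4 := by simp
  have h := hC S t ht0 ht1 (by
    rw [e1]
    exact mul_ne_zero (mul_ne_zero h16 ht0) (pow_ne_zero _ (sub_ne_zero.2 ht1))) (by
    rw [e2]
    exact pow_ne_zero _ ht2) (by
    rw [e1, e2]
    intro h
    apply ht3
    unfold phi
    rw [h, div_self]
    exact pow_ne_zero _ ht2)
  rw [e] at h
  exact_mod_cast h

end Pool.Agent.V5helper62.SS
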