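import Mathlib
import Pool.Agent.V5helper62.SS.Pull
set_option autoImplicit false

/-!
The maps `y ↦ A (phi (y ^ m)) / B (phi (y ^ m))`.
-/

namespace Pool.Agent.V5helper62.SS

open NumberField IsDedekindDomain Finset Pool.Agent.H691R3 Pool.Agent.TH876.Loc
open Polynomial Height
open Pool.Agent.V5helper62.TS

variable {k : Type} [Field k] [NumberField k]

/-- the value -/
noncomputable def fam (A B : k[X]) (m : ℕ) (y : k) : k :=
  A.eval (phi (y ^ m)) / B.eval (phi (y ^ m))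

/-- the zeros of a polynomial have bounded height -/
theorem root_height {H : k[X]} (hH : H ≠ 0) : ∃ C : ℝ, 0 ≤ C ∧ ∀ t : k, C < logHeight₁ t →
    H.eval t ≠ 0 := by
  classical
  refine ⟨∑ t ∈ H.roots.toFinset, logHeight₁ t,
    Finset.sum_nonneg fun t _ => zero_le_logHeight₁ t, fun t ht h => ?_⟩
  have h1 : t ∈ H.roots.toFinset := by
    rw [Multiset.mem_toFinset, mem_roots hH]
    exact h
  have h2 := Finset.single_le_sum (f := fun t : k => logHeight₁ t)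
    (fun t _ => zero_le_logHeight₁ t) h1
  linarith

theorem ht_zero : logHeight₁ (0 : k) = 0 := logHeight₁_zero

theorem ht_one : logHeight₁ (1 : k) = 0 := logHeight₁_one

theorem ht_neg_one : logHeight₁ (-1 : k) = 0 := by
  have h1 := logHeight₁_pow (-1 : k) 2
  have h2 : ((-1 : k)) ^ 2 = 1 := by ring
  rw [h2, ht_one] at h1
  push_cast at h1
  linarith

/-- the height of `phi` -/
theorem phi_height : ∃ C : ℝ, 0 ≤ C ∧ ∀ t : k, t + 1 ≠ 0 →
    logHeight₁ (phi t) ≤ 4 * logHeight₁ t + C ∧ 4 * logHeight₁ t ≤ logHeight₁ (phi t) + C := by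
  have hco : IsCoprime (C 16 * X * (X - 1) ^ 2 : k[X]) ((X + 1) ^ 4) := by
    have h2 : (2 : k) ≠ 0 := by norm_num
    have h16 : (16 : k) ≠ 0 := by norm_num
    refine IsCoprime.pow_right ?_
    have e1 : IsCoprime (X : k[X]) (X + 1) := ⟨-1, 1, by ring⟩
    have e2 : IsCoprime (X - 1 : k[X]) (X + 1) := by
      refine ⟨-C (1 / 2), C (1 / 2), ?_⟩
      have : (C (1 / 2) : k[X]) * 2 = 1 := by
        have h3 : (2 : k[X]) = C 2 := rfl
        rw [h3, ← C_mul]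
        norm_num
      linear_combination this
    have e3 : IsCoprime (C 16 : k[X]) (X + 1) := by
      refine ⟨C (1 / 16), 0, ?_⟩
      rw [zero_mul, add_zero, ← C_mul]
      norm_num
    exact (e3.mul_left e1).mul_left e2.pow_left
  have hA : (C 16 * X * (X - 1) ^ 2 : k[X]).natDegree ≤ 4 := by
    compute_degree
    norm_num
  have hB : ((X + 1) ^ 4 : k[X]).natDegree = 4 := by
    rw [natDegree_pow, show (X + 1 : k[X]) = X + C 1 by rw [C_1], natDegree_X_add_C]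
  obtain ⟨C', hC0, hC⟩ := height_rat hco (D := 4) (by norm_num) hA hB.le (Or.inr hB)
  refine ⟨C', hC0, fun t ht => ?_⟩
  have e : (C 16 * X * (X - 1) ^ 2 : k[X]).eval t / ((X + 1) ^ 4 : k[X]).eval t = phi t := by
    unfold phi
    simp
  have h := hC t (by
    simp only [eval_pow, eval_add, eval_X, eval_one]
    exact pow_ne_zero _ ht)
  rw [e] at h
  exact_mod_cast h

/-- **The family.** -/
theorem family {A B : k[X]} (hco : IsCoprime A B) {D : ℕ} (hD1 : 1 ≤ D)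
    (hA : A.natDegree ≤ D) (hB : B.natDegree ≤ D) (hD : A.natDegree = D ∨ B.natDegree = D)
    (hH : A * B * (A - B) ≠ 0)
    (hdeg : {z : AlgebraicClosure k | z ≠ 0 ∧ z ≠ 1 ∧ aeval z (A * B * (A - B)) = 0}.ncard ≤ D - 1)
    {m : ℕ} (hm : 1 ≤ m) : ∃ C : ℝ, 0 ≤ C ∧ ∀ y : k, C < logHeight₁ y →
      B.eval (phi (y ^ m)) ≠ 0 ∧ y ^ m + 1 ≠ 0 ∧ fam A B m y ≠ 0 ∧ fam A B m y ≠ 1 ∧
      logHeight₁ (fam A B m y) ≤ 4 * D * m * logHeight₁ y + C ∧
      4 * D * m * logHeight₁ y ≤ logHeight₁ (fam A B m y) + C ∧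
      ∀ S : Set (Pr k), NQ S three (fam A B m y) ≤
        NQ S three y + (4 * D * m - 1) * logHeight₁ y + C := by
  obtain ⟨C1, hC1, h1⟩ := root_height hH
  obtain ⟨C2, hC2, h2⟩ := phi_height (k := k)
  obtain ⟨C3, hC3, h3⟩ := height_rat hco hD1 hA hB hD
  obtain ⟨C4, hC4, h4⟩ := pull_rat hH hdeg
  obtain ⟨C5, hC5, h5⟩ := pull_pow (k := k) hm
  obtain ⟨C6, hC6, h6⟩ := pull_phi (k := k)
  have hm0 : (1 : ℝ) ≤ m := by exact_mod_cast hm
  have hD0 : (1 : ℝ) ≤ D := by exact_mod_cast hD1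
  refine ⟨C1 + C2 + C3 + C4 + C5 + C6 + D * C2 + (D - 1 : ℝ) * C2, ?_, fun y hy => ?_⟩
  · have : 0 ≤ (D - 1 : ℝ) * C2 := mul_nonneg (by linarith) hC2
    positivity
  have hDC : 0 ≤ (D - 1 : ℝ) * C2 := mul_nonneg (by linarith) hC2
  have hDC2 : 0 ≤ (D : ℝ) * C2 := by positivity
  have hhy : 0 ≤ logHeight₁ y := zero_le_logHeight₁ y
  have hy0 : y ≠ 0 := by
    rintro rfl
    rw [ht_zero] at hy
    linarith
  have hy1 : y ≠ 1 := by
    rintro rfl
    rw [ht_one] at hy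
    linarith
  obtain ⟨z, hz⟩ : ∃ z : k, z = y ^ m := ⟨_, rfl⟩
  have hhz : logHeight₁ z = m * logHeight₁ y := by rw [hz, logHeight₁_pow]
  have hhz' : logHeight₁ y ≤ logHeight₁ z := by rw [hhz]; nlinarith
  have hz0 : z ≠ 0 := by rw [hz]; exact pow_ne_zero _ hy0
  have hz1 : z ≠ 1 := by
    intro h
    rw [h, ht_one] at hhz'
    linarith
  have hz2 : z + 1 ≠ 0 := by
    intro h
    rw [add_eq_zero_iff_eq_neg] at h
    rw [h, ht_neg_one] at hhz'
    linarith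
  have hhw := h2 z hz2
  obtain ⟨w, hw⟩ : ∃ w : k, w = phi z := ⟨_, rfl⟩
  rw [← hw] at hhw
  have hhw' : C1 < logHeight₁ w := by linarith [hhw.2]
  have hw0 : w ≠ 0 := by
    rintro h
    rw [h, ht_zero] at hhw'
    linarith
  have hw1 : w ≠ 1 := by
    rintro h
    rw [h, ht_one] at hhw'
    linarith
  have hHw := h1 w hhw'
  rw [eval_mul, eval_mul, eval_sub, mul_ne_zero_iff, mul_ne_zero_iff, sub_ne_zero] at hHw
  obtain ⟨⟨hAw, hBw⟩, hABw⟩ := hHw
  obtain ⟨x, hx⟩ : ∃ x : k, x = A.eval w / B.eval w := ⟨_, rfl⟩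
  have hfam : fam A B m y = x := by
    unfold fam
    rw [← hz, ← hw, hx]
  rw [hfam, ← hz, ← hw]
  have hhx := h3 w hBw
  rw [← hx] at hhx
  have e1 : (D : ℝ) * logHeight₁ w ≤ 4 * D * m * logHeight₁ y + D * C2 := by
    have := mul_le_mul_of_nonneg_left hhw.1 (by linarith : (0 : ℝ) ≤ D)
    rw [hhz] at this
    linarith
  have e2 : 4 * D * m * logHeight₁ y ≤ (D : ℝ) * logHeight₁ w + D * C2 := by
    have := mul_le_mul_of_nonneg_left hhw.2 (by linarith : (0 : ℝ) ≤ D)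
    rw [hhz] at this
    linarith
  refine ⟨hBw, hz2, ?_, ?_, ?_, ?_, ?_⟩
  · rw [hx]
    exact div_ne_zero hAw hBw
  · rw [hx, Ne, div_eq_one_iff_eq hBw]
    exact hABw
  · linarith [hhx.1]
  · linarith [hhx.2]
  · intro S
    have g1 := h4 S w hw0 hw1 hAw hBw hABw
    rw [← hx] at g1
    have g2 := h6 S z hz0 hz1 hz2 (by rw [← hw]; exact hw1)
    rw [← hw] at g2
    have g3 := h5 S y hy0 hy1 (by rw [← hz]; exact hz1)
    rw [← hz] at g3
    rw [Nat.cast_sub hD1, Nat.cast_one] at g1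
    rw [Nat.cast_sub hm, Nat.cast_one] at g3
    have g4 : (D - 1 : ℝ) * logHeight₁ w ≤ (D - 1 : ℝ) * (4 * logHeight₁ z + C2) :=
      mul_le_mul_of_nonneg_left hhw.1 (by linarith)
    rw [hhz] at g2 g4
    have g5 : (D - 1 : ℝ) * (4 * (m * logHeight₁ y) + C2) + 3 * (m * logHeight₁ y) +
        ((m : ℝ) - 1) * logHeight₁ y = (4 * D * m - 1) * logHeight₁ y + (D - 1 : ℝ) * C2 := by ring
    linarith

end Pool.Agent.V5helper62.SS
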