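import Mathlib
import Pool.Agent.V5helper62.SS.Family
set_option autoImplicit false

/-!
The inequality relative to infinity and the zeros of a polynomial, and its behaviour under
polynomial maps.
-/

namespace Pool.Agent.V5helper62.SS

open NumberField IsDedekindDomain Finset Pool.Agent.H691R3 Pool.Agent.TH876.Loc
open Polynomial Height
open Pool.Agent.V5helper62.TS

section count

variable {K : Type} [Field K] [CharZero K]

theorem comp_ne_zero' {F Q : K[X]} (hF : 1 ≤ F.natDegree) (hQ : Q ≠ 0) : Q.comp F ≠ 0 := by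
  intro h
  rw [comp_eq_zero_iff] at h
  rcases h with h | ⟨-, h⟩
  · exact hQ h
  · rw [h, natDegree_C] at hF
    omega

/-- the number of the points above the zeros of `Q` if `F` is ramified only there -/
theorem ncard_comp {F Q : K[X]} (hF : 1 ≤ F.natDegree) (hQ : Q ≠ 0) {M : ℕ}
    (hd : derivative F ∣ (Q.comp F) ^ M) :
    {z : AlgebraicClosure K | aeval z (Q.comp F) = 0}.ncard + (F.natDegree - 1) ≤
      F.natDegree * Q.natDegree := by
  classical
  obtain ⟨P, hP⟩ : ∃ P : (AlgebraicClosure K)[X], P = (Q.comp F).map (algebraMap K _) := ⟨_, rfl⟩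
  obtain ⟨F', hF'⟩ : ∃ F' : (AlgebraicClosure K)[X],
    F' = (derivative F).map (algebraMap K _) := ⟨_, rfl⟩
  have hcomp := comp_ne_zero' hF hQ
  have hP0 : P ≠ 0 := by rw [hP]; exact Polynomial.map_ne_zero hcomp
  have hdF : derivative F ≠ 0 := by
    intro h
    have := derivative_eq_zero.1 h
    omega
  have hF0 : F' ≠ 0 := by rw [hF']; exact Polynomial.map_ne_zero hdF
  have h1 : Multiset.card P.roots = F.natDegree * Q.natDegree := by
    rw [← (IsAlgClosed.splits P).natDegree_eq_card_roots, hP, natDegree_map, natDegree_comp,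
      mul_comm]
  have h2 : Multiset.card F'.roots = F.natDegree - 1 := by
    rw [← (IsAlgClosed.splits F').natDegree_eq_card_roots, hF', natDegree_map, natDegree_derivative]
  have h3 : {z : AlgebraicClosure K | aeval z (Q.comp F) = 0} = (P.roots.toFinset : Set _) := by
    ext z
    rw [Finset.mem_coe, Multiset.mem_toFinset, mem_roots hP0, IsRoot.def, hP,
      eval_map_algebraMap]
    rfl
  have hdP : F' ∣ derivative P := by
    rw [hP, derivative_map, derivative_comp, Polynomial.map_mul, hF']
    exact Dvd.intro _ rfl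
  have h4 : P.roots.dedup + F'.roots ≤ P.roots := by
    rw [Multiset.le_iff_count]
    intro z
    rw [Multiset.count_add, Multiset.count_dedup, count_roots, count_roots]
    by_cases hz : P.IsRoot z
    · rw [if_pos ((mem_roots hP0).2 hz)]
      have h5 := derivative_rootMultiplicity_of_root hz
      have h6 : 0 < rootMultiplicity z P := (rootMultiplicity_pos hP0).2 hz
      have h7 : derivative P ≠ 0 := by
        intro h
        have h8 := derivative_eq_zero.1 h
        have h9 : rootMultiplicity z P ≤ P.natDegree := by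
          rw [← count_roots]
          exact (Multiset.count_le_card _ _).trans (card_roots' P)
        omega
      have h8 := rootMultiplicity_le_rootMultiplicity_of_dvd h7 hdP z
      omega
    · rw [if_neg (fun h => hz ((mem_roots hP0).1 h)), rootMultiplicity_eq_zero hz, zero_add]
      have h5 : ¬ F'.IsRoot z := by
        intro h
        apply hz
        have h6 : F' ∣ P ^ M := by
          rw [hF', hP, ← Polynomial.map_pow]
          exact Polynomial.map_dvd _ hd
        have h7 := h.dvd h6
        rw [IsRoot.def, eval_pow] at h7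
        exact eq_zero_of_pow_eq_zero h7
      rw [rootMultiplicity_eq_zero h5]
  have h5 := Multiset.card_le_card h4
  rw [Multiset.card_add, h1, h2] at h5
  rw [h3, Set.ncard_coe_finset, Multiset.card_toFinset]
  exact h5

/-- the number of the zeros of a separable polynomial -/
theorem ncard_sep {Q : K[X]} (hQ : Q.Separable) :
    {z : AlgebraicClosure K | aeval z Q = 0}.ncard = Q.natDegree := by
  have h1 := card_rootSet_eq_natDegree (K := AlgebraicClosure K) hQ (IsAlgClosed.splits _)
  rw [← h1, ← Nat.card_eq_fintype_card, Nat.card_coe_set_eq]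
  congr 1
  ext z
  rw [mem_rootSet]
  exact ⟨fun h => ⟨hQ.ne_zero, h⟩, fun h => h.2⟩

end count

variable {k : Type} [Field k] [NumberField k]

/-- the conjecture relative to infinity and the zeros of `Q` -/
def Ineq (Q : k[X]) : Prop := ∀ ε : ℝ, 0 < ε → ∃ C : ℝ, ∀ x : k, Q.eval x ≠ 0 →
  ((Q.natDegree : ℝ) - 1 - ε) * logHeight₁ x ≤ NQ ∅ Q x + C

/-- **Polynomial maps.** -/
theorem Ineq.pull {F Q Q1 : k[X]} (hI : Ineq Q) (hF : 1 ≤ F.natDegree) (hQ : Q ≠ 0) {M : ℕ}
    (hd : derivative F ∣ (Q.comp F) ^ M) (hQ1 : Q1.Separable)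
    (hroot : ∀ z : AlgebraicClosure k, aeval z Q1 = 0 → aeval z (Q.comp F) = 0) : Ineq Q1 := by
  classical
  intro ε hε
  have hcomp := comp_ne_zero' hF hQ
  have hD0 : (0 : ℝ) < F.natDegree := by exact_mod_cast hF
  obtain ⟨C1, h1⟩ := hI (ε / F.natDegree) (by positivity)
  obtain ⟨T1, hT1⟩ := fv_bad F
  -- the number of the remaining points
  have hfin : {z : AlgebraicClosure k | aeval z (Q.comp F) = 0}.Finite := by
    refine ((Q.comp F).rootSet_finite (AlgebraicClosure k)).subset ?_
    intro z hz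
    rw [mem_rootSet]
    exact ⟨hcomp, hz⟩
  obtain ⟨d, hd'⟩ : ∃ d : ℕ, d = {z : AlgebraicClosure k | aeval z (Q.comp F) = 0 ∧
    aeval z Q1 ≠ 0}.ncard := ⟨_, rfl⟩
  have hcount : d + Q1.natDegree + (F.natDegree - 1) ≤ F.natDegree * Q.natDegree := by
    refine le_trans (add_le_add ?_ le_rfl) (ncard_comp hF hQ hd)
    rw [hd', ← ncard_sep hQ1]
    have hsub1 : {z : AlgebraicClosure k | aeval z (Q.comp F) = 0 ∧ aeval z Q1 ≠ 0} ⊆
        {z : AlgebraicClosure k | aeval z (Q.comp F) = 0} := fun z hz => hz.1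
    have hsub2 : {z : AlgebraicClosure k | aeval z Q1 = 0} ⊆
        {z : AlgebraicClosure k | aeval z (Q.comp F) = 0} := fun z hz => hroot z hz
    have hdisj : Disjoint {z : AlgebraicClosure k | aeval z (Q.comp F) = 0 ∧ aeval z Q1 ≠ 0}
        {z : AlgebraicClosure k | aeval z Q1 = 0} := by
      rw [Set.disjoint_left]
      intro z hz hz'
      exact hz.2 hz'
    rw [← Set.ncard_union_eq hdisj (hfin.subset hsub1) (hfin.subset hsub2)]
    exact Set.ncard_le_ncard (Set.union_subset hsub1 hsub2) hfin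
  obtain ⟨C2, hC2, h2⟩ := pull_core (Q := Q) (Q1 := Q1) (H := Q.comp F) (d := d)
    (fun t => F.eval t) hcomp hd'.ge (T := T1) (by
      intro v hv t ht _ hhit
      have h3 := hT1 v hv t ht
      rw [eval_comp]
      rcases hhit with h | h
      · exact absurd h (not_lt.2 h3)
      · exact h)
  obtain ⟨C3, hC3, h3⟩ := root_height hcomp
  obtain ⟨C4, hC4, h4⟩ := height_rat (k := k) (A := F) (B := 1) (isCoprime_one_right) hF le_rfl
    (by rw [natDegree_one]; exact Nat.zero_le _) (Or.inl rfl)
  obtain ⟨c, hc⟩ : ∃ c : ℝ, c = |(Q.natDegree : ℝ) - 1 - ε / F.natDegree| := ⟨_, rfl⟩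
  obtain ⟨c1, hc1⟩ : ∃ c1 : ℝ, c1 = |(Q1.natDegree : ℝ) - 1 - ε| := ⟨_, rfl⟩
  have hc0 : 0 ≤ c := by rw [hc]; exact abs_nonneg _
  have hc10 : 0 ≤ c1 := by rw [hc1]; exact abs_nonneg _
  refine ⟨|C1| + C2 + c1 * C3 + c * C4, fun x hx => ?_⟩
  have hN := NQ_nonneg ∅ Q1 x
  have hh : 0 ≤ logHeight₁ x := zero_le_logHeight₁ x
  have a1 := abs_nonneg C1
  have a2 : 0 ≤ c1 * C3 := by positivity
  have a3 : 0 ≤ c * C4 := by positivity
  by_cases hxC : logHeight₁ x ≤ C3
  · have h5 : ((Q1.natDegree : ℝ) - 1 - ε) * logHeight₁ x ≤ c1 * C3 := by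
      rw [hc1]
      exact mul_le_mul (le_abs_self _) hxC hh (abs_nonneg _)
    linarith
  rw [not_le] at hxC
  have hHx := h3 x hxC
  have hQF : Q.eval (F.eval x) ≠ 0 := by rwa [eval_comp] at hHx
  have h5 := h2 ∅ x hHx hx hQF
  have h6 := h1 (F.eval x) hQF
  have h7 := h4 x (by rw [eval_one]; exact one_ne_zero)
  rw [eval_one, div_one] at h7
  -- the height of the value
  have h8 : ((Q.natDegree : ℝ) - 1 - ε / F.natDegree) * (F.natDegree * logHeight₁ x) ≤
      ((Q.natDegree : ℝ) - 1 - ε / F.natDegree) * logHeight₁ (F.eval x) + c * C4 := by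
    have h9 : ((Q.natDegree : ℝ) - 1 - ε / F.natDegree) *
        (F.natDegree * logHeight₁ x - logHeight₁ (F.eval x)) ≤ c * C4 := by
      refine (le_abs_self _).trans ?_
      rw [abs_mul, ← hc]
      refine mul_le_mul_of_nonneg_left ?_ hc0
      rw [abs_le]
      constructor <;> linarith [h7.1, h7.2]
    linarith
  have h9 : ((Q.natDegree : ℝ) - 1 - ε / F.natDegree) * (F.natDegree * logHeight₁ x) =
      ((F.natDegree : ℝ) * Q.natDegree - F.natDegree - ε) * logHeight₁ x := by
    field_simp
  have h10 : (d : ℝ) + Q1.natDegree + (F.natDegree - 1) ≤ F.natDegree * Q.natDegree := by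
    have : ((d + Q1.natDegree + (F.natDegree - 1) : ℕ) : ℝ) ≤
      ((F.natDegree * Q.natDegree : ℕ) : ℝ) := by exact_mod_cast hcount
    push_cast [Nat.cast_sub hF] at this
    exact this
  have h11 : ((Q1.natDegree : ℝ) - 1 - ε) * logHeight₁ x + d * logHeight₁ x ≤
      ((F.natDegree : ℝ) * Q.natDegree - F.natDegree - ε) * logHeight₁ x := by
    rw [← add_mul]
    exact mul_le_mul_of_nonneg_right (by linarith) hh
  have h12 := le_abs_self C1
  linarith

end Pool.Agent.V5helper62.SS
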