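import Mathlib
import Pool.Agent.V5helper62.SS.Bel1
set_option autoImplicit false

/-!
Belyi's reduction over a fixed number field: the inequality for the three points `0`, `1` and
infinity implies the inequality for all finite sets of points.
-/

namespace Pool.Agent.V5helper62.SS

open NumberField IsDedekindDomain Finset Pool.Agent.H691R3 Pool.Agent.TH876.Loc
open Polynomial Height
open Pool.Agent.V5helper62.TS

variable {k : Type} [Field k] [NumberField k]

/-- **Polynomial maps over the rational numbers.** -/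
theorem pullQ {F Q Q1 : ℚ[X]} (hI : Ineq (Q.map (algebraMap ℚ k))) (hF : 1 ≤ F.natDegree)
    (hQ : Q ≠ 0) {M : ℕ} (hd : derivative F ∣ (Q.comp F) ^ M) (hQ1 : Q1.Separable) {M' : ℕ}
    (hroot : Q1 ∣ (Q.comp F) ^ M') : Ineq (Q1.map (algebraMap ℚ k)) := by
  refine hI.pull (F := F.map (algebraMap ℚ k)) (by rwa [natDegree_map])
    (Polynomial.map_ne_zero hQ) (M := M) ?_ hQ1.map ?_
  · rw [derivative_map, ← Polynomial.map_comp, ← Polynomial.map_pow]
    exact Polynomial.map_dvd _ hd
  · intro z hz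
    have h1 : Q1.map (algebraMap ℚ k) ∣ ((Q.map (algebraMap ℚ k)).comp (F.map (algebraMap ℚ k))) ^ M' := by
      rw [← Polynomial.map_comp, ← Polynomial.map_pow]
      exact Polynomial.map_dvd _ hroot
    obtain ⟨G, hG⟩ := h1
    have h2 := congrArg (aeval z) hG
    rw [map_mul, hz, zero_mul, map_pow] at h2
    exact eq_zero_of_pow_eq_zero h2

theorem sep_prod {s : Finset ℚ[X]} (hs : ∀ π ∈ s, π.Monic ∧ Irreducible π) :
    (∏ π ∈ s, π).Separable := by
  classical
  have hco : ∀ π ∈ s, ∀ ρ ∈ s, π ≠ ρ → IsCoprime π ρ := by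
    intro π hπ ρ hρ hne
    by_contra hcon
    rw [(hs π hπ).2.coprime_iff_not_dvd, not_not] at hcon
    exact hne (Polynomial.eq_of_monic_of_associated (hs π hπ).1 (hs ρ hρ).1
      ((hs π hπ).2.associated_of_dvd (hs ρ hρ).2 hcon))
  refine PerfectField.separable_iff_squarefree.2 ?_
  refine Finset.squarefree_prod_of_pairwise_isCoprime ?_ fun π hπ => (hs π hπ).2.squarefree
  intro π hπ ρ hρ hne
  exact (hco π hπ ρ hρ hne).isRelPrime

theorem sep_rat (B : Finset ℚ) : (∏ b ∈ B, (X - C b : ℚ[X])).Separable := by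
  classical
  have h := sep_prod (s := B.image fun b => (X - C b : ℚ[X])) (by
    intro π hπ
    obtain ⟨b, -, rfl⟩ := Finset.mem_image.1 hπ
    exact ⟨monic_X_sub_C b, irreducible_X_sub_C b⟩)
  rw [Finset.prod_image] at h
  · exact h
  · intro a _ b _ hab
    have := congrArg (eval 0) hab
    simpa using this

/-- the elements of `B` are zeros -/
theorem dvd_comp {B B' : Finset ℚ} {F : ℚ[X]} (h : ∀ b ∈ B, F.eval b ∈ B') {b : ℚ} (hb : b ∈ B) :
    (X - C b) ∣ (∏ b ∈ B', (X - C b : ℚ[X])).comp F := by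
  rw [dvd_iff_isRoot, IsRoot.def, eval_comp, eval_prod]
  refine Finset.prod_eq_zero (h b hb) ?_
  simp

theorem prod_dvd_comp {B B' : Finset ℚ} {F : ℚ[X]} (h : ∀ b ∈ B, F.eval b ∈ B') :
    (∏ b ∈ B, (X - C b : ℚ[X])) ∣ ((∏ b ∈ B', (X - C b : ℚ[X])).comp F) ^ 1 := by
  rw [pow_one]
  refine Finset.prod_dvd_of_coprime ?_ fun b hb => dvd_comp h hb
  intro a _ b _ hab
  exact pairwise_coprime_X_sub_C (fun x y hxy => hxy) hab

/-- **Rational points.** -/
theorem ineq_rat (h3 : Ineq (three : k[X])) (N : ℕ) : ∀ B : Finset ℚ, B.card ≤ N →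
    Ineq ((∏ b ∈ B, (X - C b : ℚ[X])).map (algebraMap ℚ k)) := by
  classical
  have hthree : (∏ b ∈ ({0, 1} : Finset ℚ), (X - C b : ℚ[X])).map (algebraMap ℚ k) = three := by
    rw [Finset.prod_pair (by norm_num)]
    unfold three
    simp
  have hne : ∀ B : Finset ℚ, (∏ b ∈ B, (X - C b : ℚ[X])) ≠ 0 := fun B => (sep_rat B).ne_zero
  -- at most two points
  have htwo : ∀ B : Finset ℚ, B.card ≤ 2 →
      Ineq ((∏ b ∈ B, (X - C b : ℚ[X])).map (algebraMap ℚ k)) := by
    intro B hB
    obtain ⟨b1, b2, h12, hsub⟩ : ∃ b1 b2 : ℚ, b1 ≠ b2 ∧ B ⊆ {b1, b2} := by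
      rcases Nat.lt_or_ge B.card 2 with h | h
      · rcases Nat.lt_or_ge B.card 1 with h' | h'
        · have : B = ∅ := Finset.card_eq_zero.1 (by omega)
          exact ⟨0, 1, by norm_num, by rw [this]; exact Finset.empty_subset _⟩
        · obtain ⟨b, hb⟩ := Finset.card_eq_one.1 (show B.card = 1 by omega)
          refine ⟨b, b + 1, by simp, ?_⟩
          rw [hb]
          intro x hx
          rw [Finset.mem_singleton] at hx
          rw [hx]
          exact Finset.mem_insert_self _ _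
      · obtain ⟨b1, b2, h12, hb⟩ := Finset.card_eq_two.1 (show B.card = 2 by omega)
        exact ⟨b1, b2, h12, hb.le⟩
    have h21 : b2 - b1 ≠ 0 := sub_ne_zero.2 (Ne.symm h12)
    have hF : (C (1 / (b2 - b1)) * (X - C b1) : ℚ[X]).natDegree = 1 := by
      rw [natDegree_C_mul (by positivity), natDegree_X_sub_C]
    refine pullQ (F := C (1 / (b2 - b1)) * (X - C b1)) (Q := ∏ b ∈ ({0, 1} : Finset ℚ), (X - C b))
      (M := 1) (by rw [hthree]; exact h3) hF.ge (hne _) ?_ (sep_rat B) (prod_dvd_comp ?_)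
    · have e : derivative (C (1 / (b2 - b1)) * (X - C b1) : ℚ[X]) = C (1 / (b2 - b1)) := by
        simp
      rw [e]
      have : IsUnit (C (1 / (b2 - b1)) : ℚ[X]) := by
        rw [isUnit_C, isUnit_iff_ne_zero]
        positivity
      exact this.dvd
    · intro b hb
      have := hsub hb
      rw [Finset.mem_insert, Finset.mem_singleton] at this
      rw [Finset.mem_insert, Finset.mem_singleton]
      rcases this with rfl | rfl
      · left
        simp
      · right
        simp only [eval_mul, eval_C, eval_sub, eval_X]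
        field_simp
  induction N with
  | zero => exact fun B hB => htwo B (by omega)
  | succ N ih =>
    intro B hB
    rcases Nat.lt_or_ge 2 B.card with hB2 | hB2
    swap
    · exact htwo B hB2
    have hBne : B.Nonempty := Finset.card_pos.1 (by omega)
    obtain ⟨b1, hb1⟩ : ∃ b1, b1 = B.min' hBne := ⟨_, rfl⟩
    obtain ⟨b3, hb3⟩ : ∃ b3, b3 = B.max' hBne := ⟨_, rfl⟩
    have hb1B : b1 ∈ B := by rw [hb1]; exact Finset.min'_mem _ _
    have hb3B : b3 ∈ B := by rw [hb3]; exact Finset.max'_mem _ _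
    obtain ⟨b2, hb2B, hb21, hb23⟩ : ∃ b2 ∈ B, b2 ≠ b1 ∧ b2 ≠ b3 := by
      have h1 : 0 < ((B.erase b1).erase b3).card := by
        have h2 := Finset.pred_card_le_card_erase (s := B) (a := b1)
        have h3 := Finset.pred_card_le_card_erase (s := B.erase b1) (a := b3)
        omega
      obtain ⟨b2, hb2⟩ := Finset.card_pos.1 h1
      rw [Finset.mem_erase, Finset.mem_erase] at hb2
      exact ⟨b2, hb2.2.2, hb2.2.1, hb2.1⟩
    have h12 : b1 < b2 := lt_of_le_of_ne (by rw [hb1]; exact Finset.min'_le _ _ hb2B) hb21.symm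
    have h23 : b2 < b3 := lt_of_le_of_ne (by rw [hb3]; exact Finset.le_max' _ _ hb2B) hb23
    obtain ⟨ρ, hρ⟩ : ∃ ρ : ℚ, ρ = (b2 - b1) / (b3 - b2) := ⟨_, rfl⟩
    have hρ0 : 0 < ρ := by
      rw [hρ]
      exact div_pos (by linarith) (by linarith)
    obtain ⟨a, ha⟩ : ∃ a : ℕ, (a : ℤ) = ρ.num := ⟨ρ.num.toNat, Int.toNat_of_nonneg
      (Rat.num_pos.2 hρ0).le⟩
    obtain ⟨b, hb⟩ : ∃ b : ℕ, b = ρ.den := ⟨_, rfl⟩
    have ha1 : 1 ≤ a := by
      have := Rat.num_pos.2 hρ0
      omega
    have hb1' : 1 ≤ b := by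
      rw [hb]
      exact ρ.den_pos
    have hrat : (a : ℚ) * (b3 - b2) = b * (b2 - b1) := by
      have h1 : ρ = a / b := by
        rw [hb]
        have : (a : ℚ) = ((a : ℤ) : ℚ) := by push_cast; rfl
        rw [this, ha]
        exact ρ.num_div_den.symm
      have hbQ : (b : ℚ) ≠ 0 := by
        have : (1 : ℚ) ≤ b := by exact_mod_cast hb1'
        intro h
        rw [h] at this
        norm_num at this
      have h32 : b3 - b2 ≠ 0 := by linarith
      rw [h1, div_eq_div_iff hbQ h32] at hρ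
      linarith
    obtain ⟨F, hF⟩ : ∃ F : ℚ[X], F = (X - C b1) ^ a * (X - C b3) ^ b := ⟨_, rfl⟩
    have hFd : F.natDegree = a + b := by
      rw [hF, ((monic_X_sub_C b1).pow a).natDegree_mul ((monic_X_sub_C b3).pow b),
        (monic_X_sub_C b1).natDegree_pow, (monic_X_sub_C b3).natDegree_pow, natDegree_X_sub_C,
        natDegree_X_sub_C, mul_one, mul_one]
    have hF1 : F.eval b1 = 0 := by
      rw [hF, eval_mul, eval_pow, eval_sub, eval_X, eval_C, sub_self, zero_pow (by omega), zero_mul]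
    have hF3 : F.eval b3 = 0 := by
      rw [hF, eval_mul, eval_pow, eval_pow, eval_sub, eval_sub, eval_X, eval_C, eval_C, sub_self,
        zero_pow (by omega), mul_zero]
    have hmem : ∀ c ∈ B, F.eval c ∈ B.image fun c => F.eval c :=
      fun c hc => Finset.mem_image_of_mem _ hc
    have hcard : (B.image fun c => F.eval c).card ≤ N := by
      have h1 : B.image (fun c => F.eval c) ⊆ (B.erase b3).image fun c => F.eval c := by
        intro y hy
        obtain ⟨c, hc, rfl⟩ := Finset.mem_image.1 hy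
        by_cases hc3 : c = b3
        · rw [Finset.mem_image]
          refine ⟨b1, Finset.mem_erase.2 ⟨by linarith [h12.trans h23], hb1B⟩, ?_⟩
          rw [hc3, hF1, hF3]
        · exact Finset.mem_image_of_mem _ (Finset.mem_erase.2 ⟨hc3, hc⟩)
      have h2 := (Finset.card_le_card h1).trans Finset.card_image_le
      have h3 := Finset.card_erase_of_mem hb3B
      omega
    refine pullQ (F := F) (M := (a - 1) + (b - 1) + 1) (ih _ hcard) (by omega) (hne _) ?_
      (sep_rat B) (prod_dvd_comp hmem)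
    have hder : derivative F = (X - C b1) ^ (a - 1) * (X - C b3) ^ (b - 1) *
        (C (a + b : ℚ) * (X - C b2)) := by
      obtain ⟨a', rfl⟩ : ∃ a', a = a' + 1 := ⟨a - 1, by omega⟩
      obtain ⟨b', rfl⟩ : ∃ b', b = b' + 1 := ⟨b - 1, by omega⟩
      have e1 : (C ((((a' + 1 : ℕ) : ℚ) + ((b' + 1 : ℕ) : ℚ)) : ℚ) : ℚ[X]) * (X - C b2) =
          C ((a' + 1 : ℕ) : ℚ) * (X - C b3) + C ((b' + 1 : ℕ) : ℚ) * (X - C b1) := by
        have e2 : (C (((a' + 1 : ℕ) : ℚ) * b3 + ((b' + 1 : ℕ) : ℚ) * b1) : ℚ[X]) =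
            C ((((a' + 1 : ℕ) : ℚ) + ((b' + 1 : ℕ) : ℚ)) * b2) := by
          congr 1
          linarith
        simp only [C_add, C_mul] at e2 ⊢
        linear_combination e2
      rw [e1, hF, derivative_mul, derivative_X_sub_C_pow, derivative_X_sub_C_pow,
        Nat.add_sub_cancel, Nat.add_sub_cancel]
      simp only [map_natCast]
      ring
    rw [hder, pow_add, pow_add, pow_one]
    refine mul_dvd_mul (mul_dvd_mul (pow_dvd_pow_of_dvd (dvd_comp hmem hb1B) _)
      (pow_dvd_pow_of_dvd (dvd_comp hmem hb3B) _)) ?_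
    have hu : IsUnit (C (a + b : ℚ) : ℚ[X]) := by
      rw [isUnit_C, isUnit_iff_ne_zero]
      have : (1 : ℚ) ≤ a := by exact_mod_cast ha1
      have h2 : (0 : ℚ) ≤ b := Nat.cast_nonneg _
      intro h
      linarith
    exact (hu.mul_left_dvd).2 (dvd_comp hmem hb2B)

end Pool.Agent.V5helper62.SS
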