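import Mathlib
import Pool.Agent.V5helper62.SS.Bel2
set_option autoImplicit false

/-!
Belyi's reduction: algebraic points.
-/

namespace Pool.Agent.V5helper62.SS

open NumberField IsDedekindDomain Finset Pool.Agent.H691R3 Pool.Agent.TH876.Loc
open Polynomial Height
open Pool.Agent.V5helper62.TS

variable {k : Type} [Field k] [NumberField k]

/-- the image of an irreducible polynomial -/
theorem exists_push {K : Type} [Field K] (μ : K[X]) {π : K[X]} (hm : π.Monic) (hi : Irreducible π) :
    ∃ ρ : K[X], ρ.Monic ∧ Irreducible ρ ∧ ρ.natDegree ≤ π.natDegree ∧ π ∣ ρ.comp μ ∧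
      (π = μ → ρ.natDegree = 1) := by
  obtain ⟨β, hβ⟩ := IsAlgClosed.exists_aeval_eq_zero (AlgebraicClosure K) π
    (degree_pos_of_irreducible hi).ne'
  have hπ : minpoly K β = π := (minpoly.eq_of_irreducible_of_monic hi hβ hm).symm
  have hint : IsIntegral K β := Algebra.IsIntegral.isIntegral β
  have hγ : IsIntegral K (aeval β μ) := Algebra.IsIntegral.isIntegral _
  refine ⟨minpoly K (aeval β μ), minpoly.monic hγ, minpoly.irreducible hγ, ?_, ?_, ?_⟩
  · have hfk : FiniteDimensional K (IntermediateField.adjoin K {β}) :=
      IntermediateField.adjoin.finiteDimensional hint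
    have h2 : Module.finrank K (IntermediateField.adjoin K {β}) = (minpoly K β).natDegree :=
      IntermediateField.adjoin.finrank hint
    let z : IntermediateField.adjoin K {β} := ⟨β, IntermediateField.mem_adjoin_simple_self K β⟩
    have h5 : (IntermediateField.val (IntermediateField.adjoin K {β})) (aeval z μ) =
        aeval β μ := by
      rw [← aeval_algHom_apply]
      rfl
    have h3 : minpoly K (aeval β μ) = minpoly K (aeval z μ) := by
      rw [← h5]
      exact minpoly.algHom_eq (IntermediateField.val (IntermediateField.adjoin K {β}))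
        (IntermediateField.val (IntermediateField.adjoin K {β})).toRingHom.injective _
    rw [h3, ← hπ, ← h2]
    exact minpoly.natDegree_le _
  · have h1 : minpoly K β ∣ (minpoly K (aeval β μ)).comp μ := by
      refine minpoly.dvd K β ?_
      rw [aeval_comp]
      exact minpoly.aeval K _
    rwa [hπ] at h1
  · rintro rfl
    rw [hβ, minpoly.zero, natDegree_X]

/-- **Irreducible polynomials.** -/
theorem ineq_irr (h3 : Ineq (three : k[X])) (n : ℕ) : ∀ s : Finset ℚ[X],
    (∀ π ∈ s, π.Monic ∧ Irreducible π ∧ π.natDegree ≤ n + 1) →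
    Ineq ((∏ π ∈ s, π).map (algebraMap ℚ k)) := by
  classical
  induction n with
  | zero =>
    intro s hs
    obtain ⟨B, hB⟩ : ∃ B : Finset ℚ, B = s.image fun π => -π.coeff 0 := ⟨_, rfl⟩
    have h1 : ∏ π ∈ s, π = ∏ b ∈ B, (X - C b : ℚ[X]) := by
      have hπ : ∀ π ∈ s, π = X - C (-π.coeff 0) := by
        intro π hπ
        obtain ⟨g1, g2, g3⟩ := hs π hπ
        have h4 : π.natDegree = 1 := by
          have := g2.natDegree_pos
          omega
        have h5 := g1.eq_X_add_C h4
        conv_lhs => rw [h5]
        rw [C_neg, sub_neg_eq_add]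
      rw [hB, Finset.prod_image]
      · exact Finset.prod_congr rfl hπ
      · intro π h1 ρ h2 h
        rw [hπ π h1, hπ ρ h2]
        simp only at h
        rw [h]
    rw [h1]
    exact ineq_rat h3 B.card B le_rfl
  | succ n ihn =>
    have key : ∀ (N : ℕ) (s : Finset ℚ[X]),
        (∀ π ∈ s, π.Monic ∧ Irreducible π ∧ π.natDegree ≤ n + 1 + 1) →
        (s.filter fun π => π.natDegree = n + 1 + 1).card ≤ N →
        Ineq ((∏ π ∈ s, π).map (algebraMap ℚ k)) := by
      intro N
      induction N with
      | zero =>
        intro s hs hN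
        refine ihn s fun π hπ => ?_
        obtain ⟨g1, g2, g3⟩ := hs π hπ
        refine ⟨g1, g2, ?_⟩
        have h1 : s.filter (fun π => π.natDegree = n + 1 + 1) = ∅ := Finset.card_eq_zero.1 (by omega)
        have h2 : π.natDegree ≠ n + 1 + 1 := by
          intro h
          have : π ∈ s.filter fun π => π.natDegree = n + 1 + 1 := Finset.mem_filter.2 ⟨hπ, h⟩
          rw [h1] at this
          exact absurd this (Finset.notMem_empty _)
        omega
      | succ N ihN =>
        intro s hs hN
        by_cases hex : (s.filter fun π => π.natDegree = n + 1 + 1).Nonempty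
        swap
        · rw [Finset.not_nonempty_iff_eq_empty] at hex
          exact ihN s hs (by rw [hex, Finset.card_empty]; exact Nat.zero_le _)
        obtain ⟨μ, hμ⟩ := hex
        rw [Finset.mem_filter] at hμ
        obtain ⟨hμs, hμd⟩ := hμ
        -- the critical points
        obtain ⟨cr, hcr⟩ : ∃ cr : Finset ℚ[X],
          cr = (UniqueFactorizationMonoid.normalizedFactors (derivative μ)).toFinset := ⟨_, rfl⟩
        have hdμ : derivative μ ≠ 0 := by
          intro h
          have := derivative_eq_zero.1 h
          omega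
        have hcr' : ∀ π ∈ cr, π.Monic ∧ Irreducible π ∧ π.natDegree < n + 1 + 1 := by
          intro π hπ
          rw [hcr, Multiset.mem_toFinset] at hπ
          have h1 := UniqueFactorizationMonoid.irreducible_of_normalized_factor π hπ
          refine ⟨?_, h1, ?_⟩
          · rw [← UniqueFactorizationMonoid.normalize_normalized_factor π hπ]
            exact Polynomial.monic_normalize h1.ne_zero
          · have h2 := natDegree_le_of_dvd
              (UniqueFactorizationMonoid.dvd_of_mem_normalizedFactors hπ) hdμ
            rw [natDegree_derivative] at h2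
            omega
        have hall : ∀ π ∈ s ∪ cr, π.Monic ∧ Irreducible π ∧ π.natDegree ≤ n + 1 + 1 := by
          intro π hπ
          rcases Finset.mem_union.1 hπ with h | h
          · exact hs π h
          · obtain ⟨g1, g2, g3⟩ := hcr' π h
            exact ⟨g1, g2, by omega⟩
        have hpush : ∀ π ∈ s ∪ cr, ∃ ρ : ℚ[X], ρ.Monic ∧ Irreducible ρ ∧
            ρ.natDegree ≤ π.natDegree ∧ π ∣ ρ.comp μ ∧ (π = μ → ρ.natDegree = 1) :=
          fun π hπ => exists_push μ (hall π hπ).1 (hall π hπ).2.1
        choose! push hp1 hp2 hp3 hp4 hp5 using hpush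
        obtain ⟨s', hs'⟩ : ∃ s' : Finset ℚ[X], s' = (s ∪ cr).image push := ⟨_, rfl⟩
        have hs'all : ∀ ρ ∈ s', ρ.Monic ∧ Irreducible ρ ∧ ρ.natDegree ≤ n + 1 + 1 := by
          intro ρ hρ
          rw [hs'] at hρ
          obtain ⟨π, hπ, rfl⟩ := Finset.mem_image.1 hρ
          exact ⟨hp1 π hπ, hp2 π hπ, (hp3 π hπ).trans (hall π hπ).2.2⟩
        have hcard : (s'.filter fun π => π.natDegree = n + 1 + 1).card ≤ N := by
          have h1 : s'.filter (fun π => π.natDegree = n + 1 + 1) ⊆
              ((s.filter fun π => π.natDegree = n + 1 + 1).erase μ).image push := by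
            intro ρ hρ
            rw [Finset.mem_filter, hs'] at hρ
            obtain ⟨hρ1, hρ2⟩ := hρ
            obtain ⟨π, hπ, rfl⟩ := Finset.mem_image.1 hρ1
            have h2 := hp3 π hπ
            refine Finset.mem_image_of_mem _ (Finset.mem_erase.2 ⟨?_, ?_⟩)
            · intro h
              have := hp5 π hπ h
              omega
            · rw [Finset.mem_filter]
              rcases Finset.mem_union.1 hπ with h | h
              · have := (hs π h).2.2
                exact ⟨h, by omega⟩
              · have := (hcr' π h).2.2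
                omega
          have h2 := (Finset.card_le_card h1).trans Finset.card_image_le
          have h3 := Finset.card_erase_of_mem (Finset.mem_filter.2 ⟨hμs, hμd⟩ :
            μ ∈ s.filter fun π => π.natDegree = n + 1 + 1)
          omega
        have hQ : (∏ π ∈ s', π) ≠ 0 :=
          (sep_prod fun π hπ => ⟨(hs'all π hπ).1, (hs'all π hπ).2.1⟩).ne_zero
        have hdvd : ∀ π ∈ s ∪ cr, π ∣ (∏ π ∈ s', π).comp μ := by
          intro π hπ
          refine (hp4 π hπ).trans ?_
          have h1 : push π ∣ ∏ π ∈ s', π :=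
            Finset.dvd_prod_of_mem _ (by rw [hs']; exact Finset.mem_image_of_mem _ hπ)
          obtain ⟨G, hG⟩ := h1
          rw [hG, mul_comp]
          exact Dvd.intro _ rfl
        refine pullQ (F := μ) (Q := ∏ π ∈ s', π) (ihN s' hs'all hcard) (by omega) hQ
          (M := Multiset.card (UniqueFactorizationMonoid.normalizedFactors (derivative μ))) ?_
          (sep_prod fun π hπ => ⟨(hs π hπ).1, (hs π hπ).2.1⟩) (M' := s.card) ?_
        · refine (UniqueFactorizationMonoid.prod_normalizedFactors hdμ).symm.dvd.trans
            (multiset_dvd_pow ?_)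
          intro π hπ
          refine hdvd π (Finset.mem_union_right _ ?_)
          rw [hcr, Multiset.mem_toFinset]
          exact hπ
        · have h1 := multiset_dvd_pow (s := s.val) (Q := (∏ π ∈ s', π).comp μ) fun π hπ =>
            hdvd π (Finset.mem_union_left _ hπ)
          have h2 : s.val.prod = ∏ π ∈ s, π := by
            rw [Finset.prod_eq_multiset_prod, Multiset.map_id']
          rw [h2] at h1
          exact h1
    exact fun s hs => key _ s hs le_rfl

/-- **All finite sets of algebraic points.** -/
theorem ineq_all (h3 : Ineq (three : k[X])) {Q : k[X]} (hQ : Q.Separable)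
    (hroot : ∀ z : AlgebraicClosure k, aeval z Q = 0 → IsIntegral ℚ z) : Ineq Q := by
  classical
  obtain ⟨s, hs⟩ : ∃ s : Finset ℚ[X],
    s = (Q.rootSet_finite (AlgebraicClosure k)).toFinset.image fun z => minpoly ℚ z := ⟨_, rfl⟩
  have hsm : ∀ z : AlgebraicClosure k, aeval z Q = 0 → minpoly ℚ z ∈ s := by
    intro z hz
    rw [hs]
    refine Finset.mem_image_of_mem _ ?_
    rw [Set.Finite.mem_toFinset, mem_rootSet]
    exact ⟨hQ.ne_zero, hz⟩
  have hall : ∀ π ∈ s, π.Monic ∧ Irreducible π := by
    intro π hπ
    rw [hs] at hπ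
    obtain ⟨z, hz, rfl⟩ := Finset.mem_image.1 hπ
    rw [Set.Finite.mem_toFinset, mem_rootSet] at hz
    exact ⟨minpoly.monic (hroot z hz.2), minpoly.irreducible (hroot z hz.2)⟩
  have h1 := ineq_irr h3 (∑ π ∈ s, π.natDegree) s fun π hπ => ⟨(hall π hπ).1, (hall π hπ).2, by
    have := Finset.single_le_sum (f := fun π : ℚ[X] => π.natDegree) (fun _ _ => Nat.zero_le _) hπ
    omega⟩
  have h2 : (∏ π ∈ s, π) ≠ 0 := (sep_prod hall).ne_zero
  refine h1.pull (F := X) (by rw [natDegree_X]) (Polynomial.map_ne_zero h2) (M := 1) ?_ hQ ?_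
  · rw [derivative_X]
    exact one_dvd _
  · intro z hz
    rw [comp_X, aeval_map_algebraMap, map_prod]
    exact Finset.prod_eq_zero (hsm z hz) (minpoly.aeval ℚ z)

end Pool.Agent.V5helper62.SS
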