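import Mathlib
set_option autoImplicit false

/-!
Simultaneous approximation: a power with bounded exponent brings finitely many complex numbers
close to `0`, `1` or infinity.
-/

namespace Pool.Agent.V5helper62.SS

open Finset

/-- simultaneous approximation by powers -/
theorem dirichlet (ι : Type) [Fintype ι] {η : ℝ} (hη : 0 < η) : ∃ A : ℕ, 1 ≤ A ∧
    ∀ ω : ι → ℂ, (∀ v, ‖ω v‖ = 1) → ∃ a : ℕ, 1 ≤ a ∧ a ≤ A ∧ ∀ v, ‖ω v ^ a - 1‖ ≤ η := by
  classical
  have hc : IsCompact (Metric.closedBall (0 : ι → ℂ) 1) := isCompact_closedBall 0 1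
  obtain ⟨t, htf, ht⟩ := Metric.totallyBounded_iff.1 hc.totallyBounded (η / 2) (by positivity)
  refine ⟨htf.toFinset.card + 1, by omega, fun ω hω => ?_⟩
  have hmem : ∀ n : ℕ, (fun v => ω v ^ n) ∈ Metric.closedBall (0 : ι → ℂ) 1 := by
    intro n
    rw [mem_closedBall_zero_iff, pi_norm_le_iff_of_nonneg zero_le_one]
    intro v
    rw [norm_pow, hω, one_pow]
  have hcov : ∀ n : ℕ, ∃ y ∈ t, (fun v => ω v ^ n) ∈ Metric.ball y (η / 2) := by
    intro n
    have := ht (hmem n)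
    simpa only [Set.mem_iUnion, exists_prop] using this
  choose f hf1 hf2 using hcov
  obtain ⟨i, hi, j, hj, hij, he⟩ := Finset.exists_ne_map_eq_of_card_lt_of_maps_to
    (s := Finset.range (htf.toFinset.card + 1)) (t := htf.toFinset) (f := f)
    (by rw [Finset.card_range]; omega) (fun n _ => by
      rw [Finset.mem_coe, Set.Finite.mem_toFinset]; exact hf1 n)
  wlog hlt : i < j generalizing i j with H
  · exact H j hj i hi hij.symm he.symm (lt_of_le_of_ne (not_lt.1 hlt) hij.symm)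
  rw [Finset.mem_range] at hi hj
  refine ⟨j - i, by omega, by omega, fun v => ?_⟩
  have h1 : dist (fun v => ω v ^ j) (fun v => ω v ^ i) ≤ η := by
    have h2 := hf2 i
    have h3 := hf2 j
    rw [← he] at h3
    rw [Metric.mem_ball] at h2 h3
    calc dist (fun v => ω v ^ j) (fun v => ω v ^ i)
        ≤ dist (fun v => ω v ^ j) (f i) + dist (fun v => ω v ^ i) (f i) := dist_triangle_right _ _ _
      _ ≤ η / 2 + η / 2 := add_le_add h3.le h2.le
      _ = η := by ring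
  have h2 : dist (ω v ^ j) (ω v ^ i) ≤ η :=
    (dist_le_pi_dist (fun v => ω v ^ j) (fun v => ω v ^ i) v).trans h1
  rw [dist_eq_norm] at h2
  have h3 : ω v ^ j - ω v ^ i = ω v ^ i * (ω v ^ (j - i) - 1) := by
    rw [mul_sub, mul_one, ← pow_add]
    congr 2
    omega
  rw [h3, norm_mul, norm_pow, hω, one_pow, one_mul] at h2
  exact h2

/-- powers of a number close to one -/
theorem pow_near {w : ℂ} (hw : ‖w‖ = 1) {t : ℝ} (h : ‖w - 1‖ ≤ t) (j : ℕ) :
    ‖w ^ j - 1‖ ≤ j * t := by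
  induction j with
  | zero => simp
  | succ j ih =>
    have e : w ^ (j + 1) - 1 = w * (w ^ j - 1) + (w - 1) := by ring
    rw [e]
    refine (norm_add_le _ _).trans ?_
    rw [norm_mul, hw, one_mul]
    push_cast
    linarith

/-- a good scale -/
theorem scale (ι : Type) [Fintype ι] {c1 c2 κ : ℝ} (hκ : 1 ≤ κ) (hc : c2 ≤ κ * c1)
    (L : ι → ℝ) (hL : ∀ v, 0 ≤ L v) :
    ∃ i : ℕ, i ≤ Fintype.card ι ∧ ∀ v, κ ^ i * L v ≤ c1 ∨ c2 ≤ κ ^ i * L v := by
  classical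
  by_contra hcon
  push Not at hcon
  have h : ∀ i : Fin (Fintype.card ι + 1), ∃ v, c1 < κ ^ (i : ℕ) * L v ∧ κ ^ (i : ℕ) * L v < c2 :=
    fun i => hcon i (by omega)
  choose f hf1 hf2 using h
  obtain ⟨i, j, hij, he⟩ := Fintype.exists_ne_map_eq_of_card_lt f (by simp)
  wlog hlt : i < j generalizing i j with H
  · exact H j i hij.symm he.symm (lt_of_le_of_ne (not_lt.1 hlt) hij.symm)
  have h1 := hf1 i
  have h2 := hf2 j
  rw [← he] at h2
  have h3 : κ ^ ((i : ℕ) + 1) ≤ κ ^ (j : ℕ) := pow_le_pow_right₀ hκ hlt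
  have h4 : κ ^ ((i : ℕ) + 1) * L (f i) ≤ κ ^ (j : ℕ) * L (f i) :=
    mul_le_mul_of_nonneg_right h3 (hL _)
  have h5 : κ * c1 ≤ κ * (κ ^ (i : ℕ) * L (f i)) := mul_le_mul_of_nonneg_left h1.le (by linarith)
  rw [pow_succ] at h4
  nlinarith

/-- the analytic part -/
theorem near_one {z : ℂ} (hz : z ≠ 0) {t : ℝ} {m : ℕ} {c : ℝ} (hc : m * |Real.log ‖z‖| ≤ c)
    (hc1 : c ≤ 1) (h : ‖(z / ‖z‖) ^ m - 1‖ ≤ t) : ‖z ^ m - 1‖ ≤ 2 * c + t := by
  have hz' : (0 : ℝ) < ‖z‖ := norm_pos_iff.2 hz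
  obtain ⟨w, hw⟩ : ∃ w : ℂ, w = (z / ‖z‖) ^ m := ⟨_, rfl⟩
  obtain ⟨ρ, hρ⟩ : ∃ ρ : ℝ, ρ = ‖z‖ ^ m := ⟨_, rfl⟩
  have hw1 : ‖w‖ = 1 := by
    rw [hw, norm_pow, norm_div, Complex.norm_real, norm_norm, div_self hz'.ne', one_pow]
  have e : z ^ m - 1 = ((ρ : ℂ) - 1) * w + (w - 1) := by
    have h1 : z ^ m = (ρ : ℂ) * w := by
      rw [hρ, hw, div_pow]
      push_cast
      rw [mul_div_cancel₀]
      exact pow_ne_zero _ (by exact_mod_cast hz'.ne')
    rw [h1]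
    ring
  have h1 : ρ = Real.exp (m * Real.log ‖z‖) := by
    rw [hρ, ← Real.log_pow, Real.exp_log (pow_pos hz' _)]
  have h2 : |ρ - 1| ≤ 2 * c := by
    rw [h1]
    have h3 : |m * Real.log ‖z‖| ≤ c := by
      rw [abs_mul, Nat.abs_cast]
      exact hc
    refine (Real.abs_exp_sub_one_le (h3.trans hc1)).trans ?_
    linarith
  rw [e]
  refine (norm_add_le _ _).trans (add_le_add ?_ (by rw [hw]; exact h))
  rw [norm_mul, hw1, mul_one]
  have h4 : ‖(ρ : ℂ) - 1‖ = |ρ - 1| := by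
    rw [← Complex.ofReal_one, ← Complex.ofReal_sub, Complex.norm_real, Real.norm_eq_abs]
  rw [h4]
  exact h2

/-- **The complex case.** -/
theorem complex_near (ι : Type) [Fintype ι] {η : ℝ} (hη : 0 < η) (hη1 : η < 1) (Q J : ℕ)
    (hQ : 1 ≤ Q) (hJ : 1 ≤ J) : ∃ M : ℕ, ∀ z : ι → ℂ, (∀ v, z v ≠ 0) → ∃ e : ℕ, 1 ≤ e ∧ e ≤ M ∧
      Q ∣ e ∧ ∀ j : ℕ, 1 ≤ j → j ≤ J → ∀ v,
        ‖z v ^ (e * j)‖ ≤ η ∨ 1 / η ≤ ‖z v ^ (e * j)‖ ∨ ‖z v ^ (e * j) - 1‖ ≤ η := by
  classical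
  have hJ0 : (0 : ℝ) < J := by exact_mod_cast hJ
  obtain ⟨A, hA1, hA⟩ := dirichlet ι (η := η / (2 * J)) (by positivity)
  have hA0 : (0 : ℝ) < A := by exact_mod_cast hA1
  have hQ0 : (0 : ℝ) < Q := by exact_mod_cast hQ
  obtain ⟨c1, hc1⟩ : ∃ c1 : ℝ, c1 = η / (4 * (Q * A * J)) := ⟨_, rfl⟩
  obtain ⟨c2, hc2⟩ : ∃ c2 : ℝ, c2 = Real.log (1 / η) := ⟨_, rfl⟩
  have hc10 : 0 < c1 := by rw [hc1]; positivity
  obtain ⟨κ, hκ⟩ := exists_nat_ge (c2 / c1)
  have hκ1 : c2 ≤ ((κ + 1 : ℕ) : ℝ) * c1 := by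
    rw [div_le_iff₀ hc10] at hκ
    push_cast
    nlinarith
  refine ⟨Q * A * (κ + 1) ^ Fintype.card ι, fun z hz => ?_⟩
  obtain ⟨i, hi, hsc⟩ := scale ι (c1 := c1) (c2 := c2) (κ := ((κ + 1 : ℕ) : ℝ))
    (by exact_mod_cast Nat.le_add_left 1 κ) hκ1 (fun v => |Real.log ‖z v‖|) fun v => abs_nonneg _
  obtain ⟨s, hs⟩ : ∃ s : ℕ, s = (κ + 1) ^ i := ⟨_, rfl⟩
  have hs1 : 1 ≤ s := by rw [hs]; exact Nat.one_le_pow _ _ (Nat.succ_pos κ)
  obtain ⟨a, ha1, ha2, ha⟩ := hA (fun v => (z v / ‖z v‖) ^ (Q * s)) (by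
    intro v
    have hz' : (0 : ℝ) < ‖z v‖ := norm_pos_iff.2 (hz v)
    rw [norm_pow, norm_div, Complex.norm_real, norm_norm, div_self hz'.ne', one_pow])
  refine ⟨Q * a * s, Nat.one_le_iff_ne_zero.2 (by positivity), ?_, ⟨a * s, by ring⟩, ?_⟩
  · refine Nat.mul_le_mul (Nat.mul_le_mul le_rfl ha2) ?_
    rw [hs]
    exact Nat.pow_le_pow_right (Nat.succ_pos κ) hi
  intro j hj1 hj2 v
  have hz' : (0 : ℝ) < ‖z v‖ := norm_pos_iff.2 (hz v)
  have hsR : (((κ + 1 : ℕ) : ℝ)) ^ i = (s : ℝ) := by rw [hs]; push_cast; rfl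
  have haR : (1 : ℝ) ≤ a := by exact_mod_cast ha1
  have haR2 : (a : ℝ) ≤ A := by exact_mod_cast ha2
  have hjR : (1 : ℝ) ≤ j := by exact_mod_cast hj1
  have hjR2 : (j : ℝ) ≤ J := by exact_mod_cast hj2
  have hQR : (1 : ℝ) ≤ Q := by exact_mod_cast hQ
  have hsR1 : (1 : ℝ) ≤ s := by exact_mod_cast hs1
  rcases hsc v with h | h
  · -- close to one
    right
    right
    have h' : (s : ℝ) * |Real.log ‖z v‖| ≤ c1 := by
      rw [← hsR]
      exact h
    have h1 : ((Q * a * s * j : ℕ) : ℝ) * |Real.log ‖z v‖| ≤ η / 4 := by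
      push_cast
      have h2 : (Q : ℝ) * a * s * j * |Real.log ‖z v‖| = (Q * a * j) * (s * |Real.log ‖z v‖|) := by
        ring
      rw [h2]
      have h3 : (Q : ℝ) * a * j ≤ Q * A * J := by
        refine mul_le_mul (mul_le_mul_of_nonneg_left haR2 hQ0.le) hjR2 (by linarith) (by positivity)
      calc (Q * a * j) * (s * |Real.log ‖z v‖|) ≤ (Q * A * J) * c1 :=
            mul_le_mul h3 h' (by positivity) (by positivity)
        _ = η / 4 := by
            rw [hc1]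
            field_simp
    have h4 : ‖(z v / ‖z v‖) ^ (Q * a * s * j) - 1‖ ≤ η / 2 := by
      have h5 := pow_near (w := ((z v / ‖z v‖) ^ (Q * s)) ^ a) (by
        rw [norm_pow, norm_pow, norm_div, Complex.norm_real, norm_norm, div_self hz'.ne', one_pow,
          one_pow]) (ha v) j
      have e : (z v / ‖z v‖) ^ (Q * a * s * j) = (((z v / ‖z v‖) ^ (Q * s)) ^ a) ^ j := by
        rw [← pow_mul, ← pow_mul]
        congr 1
        ring
      rw [e]
      refine h5.trans ?_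
      calc (j : ℝ) * (η / (2 * J)) ≤ J * (η / (2 * J)) :=
            mul_le_mul_of_nonneg_right hjR2 (by positivity)
        _ = η / 2 := by field_simp
    have h6 := near_one (hz v) h1 (by linarith) h4
    refine h6.trans (le_of_eq ?_)
    ring
  · -- close to zero or infinity
    have h' : c2 ≤ (s : ℝ) * |Real.log ‖z v‖| := by
      rw [← hsR]
      exact h
    have h1 : c2 ≤ ((Q * a * s * j : ℕ) : ℝ) * |Real.log ‖z v‖| := by
      push_cast
      refine h'.trans (mul_le_mul_of_nonneg_right ?_ (abs_nonneg _))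
      have h3 : (1 : ℝ) ≤ Q * a * j :=
        one_le_mul_of_one_le_of_one_le (one_le_mul_of_one_le_of_one_le hQR haR) hjR
      nlinarith
    have h2 : ‖z v ^ (Q * a * s * j)‖ = Real.exp (((Q * a * s * j : ℕ) : ℝ) * Real.log ‖z v‖) := by
      rw [norm_pow, ← Real.log_pow, Real.exp_log (pow_pos hz' _)]
    rw [h2]
    rcases le_total 0 (Real.log ‖z v‖) with hl | hl
    · right
      left
      rw [abs_of_nonneg hl, hc2] at h1
      calc 1 / η = Real.exp (Real.log (1 / η)) := (Real.exp_log (by positivity)).symm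
        _ ≤ _ := Real.exp_le_exp.2 h1
    · left
      rw [abs_of_nonpos hl, hc2, one_div, Real.log_inv] at h1
      calc _ ≤ Real.exp (Real.log η) := Real.exp_le_exp.2 (by linarith)
        _ = η := Real.exp_log hη

end Pool.Agent.V5helper62.SS
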