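import Mathlib
import Pool.Agent.H691R3.Rep
import Pool.Agent.Y730.QP
set_option autoImplicit false

/-!
Powers of an element of a number field with suitable exponents are close to `0`, `1` or infinity at
finitely many primes.
-/

namespace Pool.Agent.V5helper62.SS

open NumberField IsDedekindDomain Finset Pool.Agent.H691R3 Pool.Agent.TH876.Loc

variable {k : Type} [Field k] [NumberField k]

theorem na_pow_sub_one (v : Pr k) {w : k} (hw : fv v w = 1) {η : ℝ} (hη : 0 ≤ η)
    (h : fv v (w - 1) ≤ η) (m : ℕ) : fv v (w ^ m - 1) ≤ η := by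
  induction m with
  | zero => simpa using hη
  | succ m ih =>
    have e : w ^ (m + 1) - 1 = w * (w ^ m - 1) + (w - 1) := by ring
    rw [e]
    refine (fv_na v _ _).trans (max_le ?_ h)
    rw [map_mul, hw, one_mul]
    exact ih

theorem fv_le_half (v : Pr k) {y : k} (hy : y ≠ 0) (h : fv v y < 1) : fv v y ≤ 1 / 2 := by
  obtain ⟨n, hn⟩ := log_fv v hy
  have hpos : 0 < fv v y := (fv v).pos hy
  have h1 : Real.log (fv v y) < 0 := Real.log_neg hpos h
  have h2 : 0 < Real.log (Nv v) := log_Nv_pos v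
  rw [hn] at h1
  have h3 : (n : ℝ) < 0 := by
    by_contra hcon
    push Not at hcon
    have := mul_nonneg hcon h2.le
    linarith
  have h4 : n ≤ -1 := by
    have : n < 0 := by exact_mod_cast h3
    omega
  have h5 : (n : ℝ) ≤ -1 := by exact_mod_cast h4
  have h6 : Real.log (fv v y) ≤ Real.log (1 / 2) := by
    rw [hn, one_div, Real.log_inv]
    have := log_two_le_log_Nv v
    nlinarith
  exact (Real.log_le_log_iff hpos (by norm_num)).1 h6

/-- the nonarchimedean case, one prime -/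
theorem finite_near_one (v : Pr k) {η : ℝ} (hη : 0 < η) : ∃ Q : ℕ, 1 ≤ Q ∧
    ∀ y : k, y ≠ 0 → ∀ e : ℕ, 1 ≤ e → Q ∣ e →
      fv v (y ^ e) ≤ η ∨ 1 / η ≤ fv v (y ^ e) ∨ fv v (y ^ e - 1) ≤ η := by
  classical
  obtain ⟨N, c, hc⟩ := tb_finite v η hη
  obtain ⟨m, hm⟩ := exists_pow_lt_of_lt_one hη (by norm_num : (1 / 2 : ℝ) < 1)
  refine ⟨(N + 1).factorial * (m + 1), Nat.one_le_iff_ne_zero.2 (by positivity), ?_⟩
  intro y hy e he hQ
  have hpos : 0 < fv v y := (fv v).pos hy
  have hme : m ≤ e := by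
    have : m + 1 ∣ e := (Dvd.intro_left _ rfl).trans hQ
    have := Nat.le_of_dvd (by omega) this
    omega
  have hsmall : ∀ z : k, z ≠ 0 → fv v z < 1 → fv v (z ^ e) ≤ η := by
    intro z hz h
    rw [map_pow]
    calc fv v z ^ e ≤ (1 / 2) ^ e := pow_le_pow_left₀ ((fv v).nonneg _) (fv_le_half v hz h) _
      _ ≤ (1 / 2) ^ m := pow_le_pow_of_le_one (by norm_num) (by norm_num) hme
      _ ≤ η := hm.le
  rcases lt_trichotomy (fv v y) 1 with h | h | h
  · exact Or.inl (hsmall y hy h)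
  · right
    right
    -- two powers with the same colour
    have hun : ∀ n : ℕ, fv v (y ^ n) = 1 := fun n => by rw [map_pow, h, one_pow]
    obtain ⟨i, j, hij, hce⟩ := Fintype.exists_ne_map_eq_of_card_lt
      (fun n : Fin (N + 1) => c (y ^ (n : ℕ))) (by simp)
    wlog hlt : i < j generalizing i j with H
    · exact H j i hij.symm hce.symm (lt_of_le_of_ne (not_lt.1 hlt) hij.symm)
    have hij' : (i : ℕ) < j := hlt
    have h1 := hc (y ^ (j : ℕ)) (y ^ (i : ℕ)) (hun _).le (hun _).le hce.symm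
    have e1 : y ^ (j : ℕ) - y ^ (i : ℕ) = y ^ (i : ℕ) * (y ^ ((j : ℕ) - i) - 1) := by
      rw [mul_sub, mul_one, ← pow_add]
      congr 2
      omega
    rw [e1, map_mul, hun, one_mul] at h1
    obtain ⟨g, hg⟩ : (j : ℕ) - i ∣ e := by
      refine (Nat.dvd_factorial (by omega) (by omega : (j : ℕ) - i ≤ N + 1)).trans ?_
      exact (Dvd.intro _ rfl).trans hQ
    rw [hg, pow_mul]
    exact na_pow_sub_one v (hun _) hη.le h1 g
  · right
    left
    have h1 := hsmall y⁻¹ (inv_ne_zero hy) (by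
      rw [map_inv₀]
      exact inv_lt_one_of_one_lt₀ h)
    rw [inv_pow, map_inv₀] at h1
    have h2 : 0 < fv v (y ^ e) := (fv v).pos (pow_ne_zero _ hy)
    rw [one_div]
    rwa [inv_le_comm₀ h2 hη] at h1

/-- the nonarchimedean case, finitely many primes -/
theorem finite_near (P : Finset (Pr k)) {η : ℝ} (hη : 0 < η) : ∃ Q : ℕ, 1 ≤ Q ∧
    ∀ y : k, y ≠ 0 → ∀ e : ℕ, 1 ≤ e → Q ∣ e → ∀ v ∈ P,
      fv v (y ^ e) ≤ η ∨ 1 / η ≤ fv v (y ^ e) ∨ fv v (y ^ e - 1) ≤ η := by
  classical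
  choose Q hQ1 hQ using fun v : Pr k => finite_near_one v hη
  refine ⟨∏ v ∈ P, Q v, Nat.one_le_iff_ne_zero.2 (Finset.prod_ne_zero_iff.2 fun v _ => by
    have := hQ1 v
    omega), ?_⟩
  intro y hy e he hd v hv
  exact hQ v y hy e he ((Finset.dvd_prod_of_mem Q hv).trans hd)

end Pool.Agent.V5helper62.SS
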