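import Mathlib
set_option autoImplicit false

/-!
Multiples in prescribed windows.
-/

namespace Pool.Agent.V5helper62.SS

open Filter

theorem window {δ : ℝ} (hδ : 0 < δ) (Y : ℕ → ℝ) (hY : ∀ i, 0 < Y i) (hYt : Tendsto Y atTop atTop)
    {r : ℝ} (hr : ∀ i, Y (i + 1) ≤ r * Y i) :
    ∃ J : ℕ, 1 ≤ J ∧ ∀ C : ℝ, 0 ≤ C → ∃ A0 : ℝ, ∀ a : ℝ, A0 ≤ a → ∃ j i : ℕ, 1 ≤ j ∧ j ≤ J ∧
      Y i + C ≤ j * a ∧ j * a + C ≤ (1 + δ) * Y i := by
  classical
  have hr0 : 0 < r := by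
    have h1 := hr 0
    have h2 := hY 0
    have h3 := hY (0 + 1)
    by_contra hcon
    push Not at hcon
    nlinarith
  obtain ⟨j0, hj0⟩ := exists_nat_ge (2 / δ)
  have hj0' : 2 ≤ j0 * δ := by rwa [div_le_iff₀ hδ] at hj0
  have hj0p : (0 : ℝ) < j0 := by
    by_contra hcon
    push Not at hcon
    nlinarith
  refine ⟨⌈r * (j0 + 1) + 2⌉₊, ?_, ?_⟩
  · rw [Nat.one_le_iff_ne_zero, Ne, Nat.ceil_eq_zero, not_le]
    positivity
  intro C hC
  refine ⟨max (max (2 * C) 1) (Y 0), fun a ha => ?_⟩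
  have ha1 : 2 * C ≤ a := (le_max_left _ _).trans ((le_max_left _ _).trans ha)
  have ha2 : 1 ≤ a := (le_max_right _ _).trans ((le_max_left _ _).trans ha)
  have ha3 : Y 0 ≤ a := (le_max_right _ _).trans ha
  have ha0 : 0 < a := by linarith
  have hex : ∃ i, j0 * a + C ≤ Y i := (hYt.eventually (eventually_ge_atTop _)).exists
  obtain ⟨i, hi⟩ : ∃ i, i = Nat.find hex := ⟨_, rfl⟩
  have hi1 : j0 * a + C ≤ Y i := by rw [hi]; exact Nat.find_spec hex
  have hYi := hY i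
  have hi2 : Y i ≤ (r * (j0 + 1) + 1) * a := by
    rcases Nat.eq_zero_or_pos i with h0 | h0
    · rw [h0] at hi1 ⊢
      have h1 : 0 < r * (j0 + 1) * a := by positivity
      nlinarith
    · have h2 : ¬ j0 * a + C ≤ Y (i - 1) := Nat.find_min hex (by omega)
      rw [not_le] at h2
      have h3 := hr (i - 1)
      rw [Nat.sub_add_cancel h0] at h3
      have h4 : r * Y (i - 1) ≤ r * (j0 * a + C) := mul_le_mul_of_nonneg_left h2.le hr0.le
      have h5 : r * (j0 * a + C) ≤ r * (j0 * a + a) :=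
        mul_le_mul_of_nonneg_left (by linarith) hr0.le
      nlinarith
  refine ⟨⌈(Y i + C) / a⌉₊, i, ?_, ?_, ?_, ?_⟩
  · rw [Nat.one_le_iff_ne_zero, Ne, Nat.ceil_eq_zero, not_le]
    positivity
  · refine Nat.ceil_le_ceil ?_
    rw [div_le_iff₀ ha0]
    nlinarith
  · have h1 := Nat.le_ceil ((Y i + C) / a)
    rwa [div_le_iff₀ ha0] at h1
  · have h1 := Nat.ceil_lt_add_one (show 0 ≤ (Y i + C) / a by positivity)
    have h2 : (⌈(Y i + C) / a⌉₊ : ℝ) * a < Y i + C + a := by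
      have h3 := mul_lt_mul_of_pos_right h1 ha0
      have h4 : ((Y i + C) / a + 1) * a = Y i + C + a := by field_simp
      rwa [h4] at h3
    have h5 : 2 * a ≤ δ * Y i := by
      have h6 : δ * (j0 * a) ≤ δ * Y i := mul_le_mul_of_nonneg_left (by linarith) hδ.le
      nlinarith
    linarith

end Pool.Agent.V5helper62.SS
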