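import Mathlib
import Pool.Agent.V5helper62.SS.Family
import Pool.Agent.V5helper62.SS.Exp
import Pool.Agent.V5helper62.SS.Fin
import Pool.Agent.V5helper62.SS.Window
set_option autoImplicit false

/-!
Every point is transferred to a point near `0` with a height in a prescribed window.
-/

namespace Pool.Agent.V5helper62.SS

open NumberField IsDedekindDomain Finset Pool.Agent.H691R3 Pool.Agent.TH876.Loc
open Polynomial Height Filter
open Pool.Agent.V5helper62.TS

variable {k : Type} [Field k] [NumberField k]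

theorem lower_bound {ι : Type} (s : Finset ι) (f : ι → ℝ) (hf : ∀ i ∈ s, 0 < f i) :
    ∃ η : ℝ, 0 < η ∧ η < 1 ∧ ∀ i ∈ s, η ≤ f i := by
  classical
  induction s using Finset.induction_on with
  | empty => exact ⟨1 / 2, by norm_num, by norm_num, by simp⟩
  | insert a s _ ih =>
    obtain ⟨η, h1, h2, h3⟩ := ih fun i hi => hf i (Finset.mem_insert_of_mem hi)
    refine ⟨min η (f a), lt_min h1 (hf a (Finset.mem_insert_self a s)),
      (min_le_left _ _).trans_lt h2, fun i hi => ?_⟩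
    rcases Finset.mem_insert.1 hi with rfl | h
    · exact min_le_right _ _
    · exact (min_le_left _ _).trans (h3 i h)

/-- **The transfer.** -/
theorem transfer (P : Finset (Pr k)) {A B : k[X]} (hco : IsCoprime A B) {D : ℕ} (hD1 : 1 ≤ D)
    (hA : A.natDegree ≤ D) (hB : B.natDegree ≤ D) (hD : A.natDegree = D ∨ B.natDegree = D)
    (hH : A * B * (A - B) ≠ 0)
    (hdeg : {z : AlgebraicClosure k | z ≠ 0 ∧ z ≠ 1 ∧ aeval z (A * B * (A - B)) = 0}.ncard ≤ D - 1)
    (hA0 : A.eval 0 = 0) (hB0 : B.eval 0 ≠ 0) {δ : ℝ} (hδ : 0 < δ) {n : ℕ} (hn : 1 ≤ n)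
    (Y : ℕ → ℝ) (hY : ∀ i, 0 < Y i) (hYt : Tendsto Y atTop atTop)
    {r : ℝ} (hr : ∀ i, Y (i + 1) ≤ r * Y i) :
    ∃ (M : ℕ) (C : ℝ), 0 ≤ C ∧ ∀ y : k, C < logHeight₁ y → ∃ m : ℕ, 1 ≤ m ∧ m ≤ M ∧ n ∣ m ∧
      B.eval (phi (y ^ m)) ≠ 0 ∧ y ^ m + 1 ≠ 0 ∧ fam A B m y ≠ 0 ∧ fam A B m y ≠ 1 ∧
      (∀ v : InfinitePlace k, v (fam A B m y) ≤ δ) ∧ (∀ v ∈ P, fv v (fam A B m y) ≤ δ) ∧
      (∃ i, Y i ≤ logHeight₁ (fam A B m y) ∧ logHeight₁ (fam A B m y) ≤ (1 + δ) * Y i) ∧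
      4 * D * m * logHeight₁ y ≤ logHeight₁ (fam A B m y) + C ∧
      ∀ S : Set (Pr k), NQ S three (fam A B m y) ≤
        NQ S three y + (4 * D * m - 1) * logHeight₁ y + C := by
  classical
  obtain ⟨J, hJ1, hJ⟩ := window hδ Y hY hYt hr
  -- the neighbourhoods
  have hninf := fun v : InfinitePlace k => all_near v.1 hA0 hB0 hδ
  choose η1 hη1 hη1' using hninf
  have hnfin := fun v : Pr k => all_near (fv v) hA0 hB0 hδ
  choose η2 hη2 hη2' using hnfin
  obtain ⟨η3, h31, h32, h33⟩ := lower_bound (Finset.univ : Finset (InfinitePlace k)) η1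
    fun v _ => hη1 v
  obtain ⟨η4, h41, h42, h43⟩ := lower_bound P η2 fun v _ => hη2 v
  obtain ⟨Q, hQ1, hQ⟩ := finite_near P h41
  obtain ⟨M, hM⟩ := complex_near (InfinitePlace k) h31 h32 (n * Q) J
    (Nat.one_le_iff_ne_zero.2 (by
      have : n ≠ 0 := by omega
      have : Q ≠ 0 := by omega
      positivity)) hJ1
  -- the constants
  have hfam := fun m : ℕ => fun hm : 1 ≤ m => family hco hD1 hA hB hD hH hdeg hm
  choose! Cm hCm hCm' using hfam
  obtain ⟨C, hC⟩ : ∃ C : ℝ, C = ∑ m ∈ Finset.Icc 1 (M * J), Cm m := ⟨_, rfl⟩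
  have hCmC : ∀ m, 1 ≤ m → m ≤ M * J → Cm m ≤ C := by
    intro m h1 h2
    rw [hC]
    exact Finset.single_le_sum (f := fun m => Cm m) (fun m hm => hCm m (Finset.mem_Icc.1 hm).1)
      (Finset.mem_Icc.2 ⟨h1, h2⟩)
  have hC0 : 0 ≤ C := by
    rw [hC]
    exact Finset.sum_nonneg fun m hm => hCm m (Finset.mem_Icc.1 hm).1
  obtain ⟨A0, hA0'⟩ := hJ C hC0
  refine ⟨M * J, max C |A0|, le_max_of_le_left hC0, fun y hy => ?_⟩
  have hyC : C < logHeight₁ y := lt_of_le_of_lt (le_max_left _ _) hy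
  have hyA : A0 < logHeight₁ y := lt_of_le_of_lt ((le_abs_self _).trans (le_max_right _ _)) hy
  have hhy : 0 < logHeight₁ y := lt_of_le_of_lt hC0 hyC
  have hy0 : y ≠ 0 := by
    rintro rfl
    rw [ht_zero] at hhy
    exact lt_irrefl _ hhy
  obtain ⟨e, he1, heM, heQ, he⟩ := hM (fun v => v.embedding y) fun v => by
    rw [Ne, map_eq_zero]
    exact hy0
  have heR : (1 : ℝ) ≤ e := by exact_mod_cast he1
  have hDR : (1 : ℝ) ≤ D := by exact_mod_cast hD1
  obtain ⟨j, i, hj1, hjJ, hw1, hw2⟩ := hA0' (4 * D * e * logHeight₁ y) (by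
    refine hyA.le.trans ?_
    have h1 : (1 : ℝ) ≤ 4 * D * e := by nlinarith
    nlinarith)
  have hm1 : 1 ≤ e * j := Nat.one_le_iff_ne_zero.2 (by
    have : e ≠ 0 := by omega
    have : j ≠ 0 := by omega
    positivity)
  have hmM : e * j ≤ M * J := Nat.mul_le_mul heM hjJ
  have hcm := hCmC _ hm1 hmM
  obtain ⟨f1, f2, f3, f4, f5, f6, f7⟩ := hCm' (e * j) hm1 y (lt_of_le_of_lt hcm hyC)
  have hmul : 4 * D * ((e * j : ℕ) : ℝ) * logHeight₁ y = j * (4 * D * e * logHeight₁ y) := by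
    push_cast
    ring
  refine ⟨e * j, hm1, hmM, (Dvd.intro _ rfl).trans (heQ.trans (Dvd.intro _ rfl)), f1, f2, f3, f4,
    ?_, ?_, ⟨i, ?_, ?_⟩, ?_, ?_⟩
  · intro v
    refine hη1' v (y ^ (e * j)) (pow_ne_zero _ hy0) ?_
    have h1 := he j hj1 hjJ v
    have h2 : ∀ z : k, v.1 z = ‖v.embedding z‖ := fun z => (v.norm_embedding_eq z).symm
    have h3 := h33 v (Finset.mem_univ _)
    rw [h2, h2, map_sub, map_pow, map_one]
    rcases h1 with h1 | h1 | h1
    · exact Or.inl (h1.trans h3)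
    · exact Or.inr (Or.inl ((one_div_le_one_div_of_le h31 h3).trans h1))
    · exact Or.inr (Or.inr (h1.trans h3))
  · intro v hv
    refine hη2' v (y ^ (e * j)) (pow_ne_zero _ hy0) ?_
    have h1 := hQ y hy0 (e * j) hm1 (((Dvd.intro_left _ rfl).trans heQ).trans (Dvd.intro _ rfl)) v hv
    have h3 := h43 v hv
    rcases h1 with h1 | h1 | h1
    · exact Or.inl (h1.trans h3)
    · exact Or.inr (Or.inl ((one_div_le_one_div_of_le h41 h3).trans h1))
    · exact Or.inr (Or.inr (h1.trans h3))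
  · rw [hmul] at f6
    linarith
  · rw [hmul] at f5
    linarith
  · have := le_max_left C |A0|
    linarith
  · intro S
    have := le_max_left C |A0|
    have := f7 S
    linarith

end Pool.Agent.V5helper62.SS
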