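import Mathlib
import Pool.Agent.V5helper62.SS.Core
import Pool.Agent.V5helper62.SS.Bel3
import Pool.Agent.N753.SF.ProjMain
set_option autoImplicit false

/-!
The two directions of the equivalence.
-/

namespace Pool.Agent.V5helper62.SS

open NumberField IsDedekindDomain Finset Pool.Agent.H691R3 Pool.Agent.TH876.Loc
open Polynomial Height Filter
open Pool.Agent.TH876.KR (form localHeight localHeight_nonneg localHeight_pos_iff m2 localHeight_eq)
open Pool.Agent.Y730.QP (cnt log_Nv_le_localHeight term_nonneg)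
open Pool.Agent.Y557.NF (cnt_eq_V exists_V ne_of_form cnt_le_logHeight)
open Pool.Agent.V5helper62.TS

variable {k : Type} [Field k] [NumberField k]

/-- invariance of the counting function -/
theorem cnt_smul (S : Set (Pr k)) {q : ℕ} (a : Fin q → Fin 2 → k) {c : k} (hc : c ≠ 0)
    {x : Fin 2 → k} (h : ∀ l, form (a l) x ≠ 0) : cnt S a (c • x) = cnt S a x := by
  unfold cnt
  refine finsum_congr fun v => finsum_congr fun _ => Finset.sum_congr rfl fun l _ => ?_
  congr 1
  have e1 : m2 v (c • x) = fv v c * m2 v x := by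
    unfold m2
    rw [Pi.smul_apply, Pi.smul_apply, smul_eq_mul, smul_eq_mul, map_mul, map_mul,
      mul_max_of_nonneg _ _ ((fv v).nonneg c)]
  have e2 : form (a l) (c • x) = c * form (a l) x := by
    unfold form
    rw [Pi.smul_apply, Pi.smul_apply, smul_eq_mul, smul_eq_mul]
    ring
  rw [localHeight_eq, localHeight_eq, e1, e2, map_mul]
  congr 1
  have h1 := ((fv v).pos hc).ne'
  have h2 := ((fv v).pos (h l)).ne'
  field_simp

/-- the primes of `S` contribute little -/
theorem cnt_empty_le {S : Set (Pr k)} (hS : S.Finite) (q : ℕ) :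
    ∃ C : ℝ, 0 ≤ C ∧ ∀ (a : Fin q → Fin 2 → k) (x : Fin 2 → k), (∀ l, form (a l) x ≠ 0) → x ≠ 0 →
      cnt ∅ a x ≤ cnt S a x + C := by
  classical
  refine ⟨q * ∑ v ∈ hS.toFinset, Real.log (Nv v), mul_nonneg (Nat.cast_nonneg _)
    (Finset.sum_nonneg fun v _ => logN_nonneg v), fun a x hx hx0 => ?_⟩
  obtain ⟨V, hV⟩ := exists_V hx hx0
  rw [cnt_eq_V ∅ V hV, cnt_eq_V S V hV]
  have h1 : ∀ v ∈ V, (if v ∉ (∅ : Set (Pr k)) then ∑ i : Fin q, min (localHeight v (a i) x)
      (Real.log (Nv v)) else 0) ≤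
      (if v ∉ S then ∑ i : Fin q, min (localHeight v (a i) x) (Real.log (Nv v)) else 0) +
        (if v ∈ hS.toFinset then q * Real.log (Nv v) else 0) := by
    intro v _
    rw [if_pos (Set.notMem_empty v)]
    have hN := logN_nonneg v
    by_cases hv : v ∈ S
    · rw [if_neg (not_not.2 hv), zero_add, if_pos (hS.mem_toFinset.2 hv)]
      refine (Finset.sum_le_sum (g := fun _ => Real.log (Nv v))
        fun i _ => min_le_right _ _).trans (le_of_eq ?_)
      rw [Finset.sum_const, Finset.card_univ, Fintype.card_fin, nsmul_eq_mul]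
    · rw [if_pos hv, if_neg (fun h => hv (hS.mem_toFinset.1 h)), add_zero]
  refine (Finset.sum_le_sum h1).trans ?_
  rw [Finset.sum_add_distrib]
  refine add_le_add le_rfl ?_
  rw [Finset.mul_sum, ← Finset.sum_filter]
  refine Finset.sum_le_sum_of_subset_of_nonneg ?_ ?_
  · intro w hw
    exact (Finset.mem_filter.1 hw).2
  · intro w _ _
    have := logN_nonneg w
    positivity

/-- the lower bound if infinity is not one of the points -/
theorem NQ_le_cnt' {q : ℕ} (a : Fin q → Fin 2 → k)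
    (ha : ∀ i j, i ≠ j → a i 0 * a j 1 - a i 1 * a j 0 ≠ 0) (ha0 : ∀ l, a l ≠ 0) :
    ∃ C : ℝ, 0 ≤ C ∧ ∀ (S : Set (Pr k)) (x : k), (∀ l, form (a l) ![x, 1] ≠ 0) →
      NQ S (poly a) x ≤ cnt S a ![x, 1] + logHeight₁ x + C := by
  classical
  obtain ⟨T, hT⟩ := good_primes a ha ha0
  obtain ⟨C2, hC2, h2⟩ := small_sum (k := k)
  refine ⟨∑ v ∈ T, Real.log (Nv v) + C2, add_nonneg
    (Finset.sum_nonneg fun v _ => logN_nonneg v) hC2, fun S x hx => ?_⟩
  obtain ⟨W, hW1, hW2⟩ := near_le_cnt S hx (vec_ne x)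
  obtain ⟨W', hW'1, hW'2⟩ : ∃ W' : Finset (Pr k), (∀ v, 1 < fv v x → v ∈ W') ∧
      ∑ v ∈ W', Real.log (Nv v) ≤ logHeight₁ x + C2 := by
    by_cases hx0 : x = 0
    · refine ⟨∅, fun v hv => ?_, ?_⟩
      · rw [hx0, map_zero] at hv
        exact absurd hv (by norm_num)
      · rw [Finset.sum_empty]
        exact add_nonneg (zero_le_logHeight₁ x) hC2
    · obtain ⟨W', h3, h4⟩ := h2 x⁻¹ (inv_ne_zero hx0)
      refine ⟨W', fun v hv => h3 v ?_, ?_⟩
      · rw [map_inv₀]
        exact inv_lt_one_of_one_lt₀ hv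
      · rwa [logHeight₁_inv] at h4
  rw [NQ_eq_sum S (hit_finite (poly_eval a hx)).toFinset (fun v hv => by
    rw [Set.Finite.mem_toFinset]
    exact hv)]
  have h1 : ∀ v ∈ (hit_finite (poly_eval a hx)).toFinset,
      (if v ∉ S ∧ Hit (poly a) v x then Real.log (Nv v) else 0) ≤
        (if v ∈ W then Real.log (Nv v) else 0) + (if v ∈ T then Real.log (Nv v) else 0) +
          (if v ∈ W' then Real.log (Nv v) else 0) := by
    intro v _
    have hN := logN_nonneg v
    have a2 : 0 ≤ (if v ∈ W then Real.log (Nv v) else 0) := by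
      split_ifs
      · exact hN
      · exact le_rfl
    have a3 : 0 ≤ (if v ∈ T then Real.log (Nv v) else 0) := by
      split_ifs
      · exact hN
      · exact le_rfl
    have a4 : 0 ≤ (if v ∈ W' then Real.log (Nv v) else 0) := by
      split_ifs
      · exact hN
      · exact le_rfl
    by_cases hv : v ∉ S ∧ Hit (poly a) v x
    · rw [if_pos hv]
      by_cases hvT : v ∈ T
      · rw [if_pos hvT]
        linarith
      by_cases hvW : v ∈ W'
      · rw [if_pos hvW]
        linarith
      · have h2 : v ∈ W := by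
          obtain ⟨hT1, hT2, hT3⟩ := hT v hvT
          refine hW1 v hv.1 ?_
          have hx1 : ¬ 1 < fv v x := fun h => hvW (hW'1 v h)
          have h3 : fv v ((poly a).eval x) < 1 := by
            rcases hv.2 with h | h
            · exact absurd h hx1
            · exact h
          rw [not_lt] at hx1
          by_contra hcon
          push Not at hcon
          unfold poly at h3
          rw [eval_prod, map_prod] at h3
          have h4 : (1 : ℝ) ≤ ∏ l : Fin q,
              fv v (eval x (if a l 1 = 0 then (1 : k[X]) else X - C (a l 0 / a l 1))) := by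
            refine Finset.prod_induction (fun l : Fin q => fv v (eval x (if a l 1 = 0 then
              (1 : k[X]) else X - C (a l 0 / a l 1)))) (fun r : ℝ => 1 ≤ r)
              (fun r s hr hs => one_le_mul_of_one_le_of_one_le hr hs) le_rfl ?_
            intro l _
            by_cases h8 : a l 1 = 0
            · rw [if_pos h8, eval_one, map_one]
            · rw [if_neg h8, eval_sub, eval_X, eval_C]
              have h9 : ¬ 0 < localHeight v (a l) ![x, 1] := not_lt.2 (hcon l)
              rw [localHeight_pos_iff v (hx l), hT1, one_mul, m2_one, form_one, not_lt] at h9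
              have h10 : (1 : ℝ) ≤ fv v (a l 0 - a l 1 * x) := (le_max_right _ _).trans h9
              have e : a l 0 - a l 1 * x = -(a l 1 * (x - a l 0 / a l 1)) := by
                field_simp
                ring
              rw [e, (fv v).map_neg, map_mul, hT2 l 1 h8, one_mul] at h10
              exact h10
          linarith
        rw [if_pos h2]
        linarith
    · rw [if_neg hv]
      linarith
  have hsum : ∀ U : Finset (Pr k), ∑ v ∈ (hit_finite (poly_eval a hx)).toFinset,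
      (if v ∈ U then Real.log (Nv v) else 0) ≤ ∑ v ∈ U, Real.log (Nv v) := by
    intro U
    rw [← Finset.sum_filter]
    refine Finset.sum_le_sum_of_subset_of_nonneg (fun v hv => (Finset.mem_filter.1 hv).2) ?_
    exact fun v _ _ => logN_nonneg v
  refine (Finset.sum_le_sum h1).trans ?_
  rw [Finset.sum_add_distrib, Finset.sum_add_distrib]
  have g1 := hsum W
  have g2 := hsum T
  have g3 := hsum W'
  linarith

theorem poly_sep {q : ℕ} (a : Fin q → Fin 2 → k)
    (ha : ∀ i j, i ≠ j → a i 0 * a j 1 - a i 1 * a j 0 ≠ 0) : (poly a).Separable := by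
  classical
  unfold poly
  refine separable_prod ?_ ?_
  · intro i j hij
    by_cases h1 : a i 1 = 0
    · simp only [Function.onFun]
      rw [if_pos h1]
      exact isCoprime_one_left
    by_cases h2 : a j 1 = 0
    · simp only [Function.onFun]
      rw [if_pos h2]
      exact isCoprime_one_right
    · simp only [Function.onFun]
      rw [if_neg h1, if_neg h2]
      refine isCoprime_X_sub_C_of_isUnit_sub ?_
      rw [isUnit_iff_ne_zero, sub_ne_zero]
      intro h
      apply ha i j hij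
      rw [div_eq_div_iff h1 h2] at h
      linear_combination h
  · intro i
    by_cases h1 : a i 1 = 0
    · rw [if_pos h1]
      exact separable_one
    · rw [if_neg h1]
      exact separable_X_sub_C

theorem poly_degree {q : ℕ} (a : Fin q → Fin 2 → k)
    (ha : ∀ i j, i ≠ j → a i 0 * a j 1 - a i 1 * a j 0 ≠ 0) :
    ((∃ l, a l 1 = 0) → (poly a).natDegree + 1 = q) ∧
    ((∀ l, a l 1 ≠ 0) → (poly a).natDegree = q) := by
  classical
  have h0 : (poly a).natDegree = ∑ l : Fin q, if a l 1 = 0 then 0 else 1 := by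
    unfold poly
    rw [natDegree_prod_of_monic]
    · refine Finset.sum_congr rfl fun l _ => ?_
      split_ifs
      · exact natDegree_one
      · exact natDegree_X_sub_C _
    · intro l _
      split_ifs
      · exact monic_one
      · exact monic_X_sub_C _
  constructor
  · rintro ⟨l, hl⟩
    rw [h0, ← Finset.add_sum_erase _ _ (Finset.mem_univ l), if_pos hl, zero_add]
    have h1 : ∀ j ∈ (Finset.univ : Finset (Fin q)).erase l, (if a j 1 = 0 then 0 else 1) = 1 := by
      intro j hj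
      rw [if_neg]
      intro h
      apply ha l j (Finset.ne_of_mem_erase hj).symm
      rw [hl, h]
      ring
    rw [Finset.sum_congr rfl h1, Finset.sum_const, Finset.card_erase_of_mem (Finset.mem_univ l),
      Finset.card_univ, Fintype.card_fin, smul_eq_mul, mul_one]
    have : 0 < q := by
      rcases Nat.eq_zero_or_pos q with h | h
      · subst h
        exact l.elim0
      · exact h
    omega
  · intro h
    rw [h0]
    have h1 : ∀ j ∈ (Finset.univ : Finset (Fin q)), (if a j 1 = 0 then 0 else 1) = 1 := by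
      intro j _
      rw [if_neg (h j)]
    rw [Finset.sum_congr rfl h1, Finset.sum_const, Finset.card_univ, Fintype.card_fin, smul_eq_mul,
      mul_one]

/-- **The three points suffice**, over a fixed number field. -/
theorem all_of_three (h3 : Ineq (three : k[X])) {S : Set (Pr k)} (hS : S.Finite) {q : ℕ}
    (a : Fin q → Fin 2 → k) (ha0 : ∀ l, a l ≠ 0)
    (ha : ∀ i j, i ≠ j → a i 0 * a j 1 - a i 1 * a j 0 ≠ 0) {ε : ℝ} (hε : 0 < ε) :
    ∃ C : ℝ, ∀ x : Fin 2 → k, x ≠ 0 → (∀ l, form (a l) x ≠ 0) →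
      ((q : ℝ) - 2 - ε) * logHeight x ≤ cnt S a x + C := by
  classical
  obtain ⟨C1, h1⟩ := ineq_all h3 (poly_sep a ha) (by
    intro z _
    have h1 : Algebra.IsIntegral k (AlgebraicClosure k) := inferInstance
    exact isIntegral_trans (R := ℚ) (A := k) z (Algebra.IsIntegral.isIntegral z)) ε hε
  obtain ⟨C4, hC4, h4⟩ := cnt_empty_le hS q
  have hfin : ∃ C : ℝ, ∀ x : k, (∀ l, form (a l) ![x, 1] ≠ 0) →
      ((q : ℝ) - 2 - ε) * logHeight₁ x ≤ cnt ∅ a ![x, 1] + C := by
    by_cases hinf : ∃ l, a l 1 = 0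
    · have hd := (poly_degree a ha).1 hinf
      obtain ⟨C2, hC2, h2⟩ := NQ_le_cnt a ha ha0 hinf
      refine ⟨C1 + C2, fun x hx => ?_⟩
      have g1 := h1 x (poly_eval a hx)
      have g2 := h2 ∅ x hx
      have e : (q : ℝ) - 2 - ε = ((poly a).natDegree : ℝ) - 1 - ε := by
        have hq : (q : ℝ) = (poly a).natDegree + 1 := by exact_mod_cast hd.symm
        linarith
      rw [e]
      linarith
    · push Not at hinf
      have hd := (poly_degree a ha).2 hinf
      obtain ⟨C2, hC2, h2⟩ := NQ_le_cnt' a ha ha0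
      refine ⟨C1 + C2, fun x hx => ?_⟩
      have g1 := h1 x (poly_eval a hx)
      have g2 := h2 ∅ x hx
      have e : ((q : ℝ) - 2 - ε) * logHeight₁ x =
          (((poly a).natDegree : ℝ) - 1 - ε) * logHeight₁ x - logHeight₁ x := by
        rw [hd]
        ring
      rw [e]
      linarith
  obtain ⟨C, hC⟩ := hfin
  refine ⟨|C| + C4, fun x hx0 hx => ?_⟩
  have hcn := cnt_nonneg S hx hx0
  have hC' := abs_nonneg C
  by_cases hx1 : x 1 = 0
  · have hx0' : x 0 ≠ 0 := by
      intro h
      apply hx0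
      funext i
      fin_cases i
      · exact h
      · exact hx1
    have e : x = x 0 • ![1, 0] := by
      funext i
      fin_cases i
      · show x 0 = x 0 * 1
        rw [mul_one]
      · show x 1 = x 0 * 0
        rw [hx1, mul_zero]
    have e2 : logHeight x = 0 := by
      rw [e, logHeight_smul_eq_logHeight _ hx0', ← logHeight_comp_equiv (Equiv.swap 0 1)]
      have e3 : (![1, 0] : Fin 2 → k) ∘ (Equiv.swap 0 1) = ![0, 1] := by
        funext i
        fin_cases i
        · rfl
        · rfl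
      rw [e3, ← logHeight₁_eq_logHeight]
      exact logHeight₁_zero
    rw [e2, mul_zero]
    linarith
  · have e : x = x 1 • ![x 0 / x 1, 1] := by
      funext i
      fin_cases i
      · show x 0 = x 1 * (x 0 / x 1)
        field_simp
      · show x 1 = x 1 * 1
        rw [mul_one]
    have hy : ∀ l, form (a l) ![x 0 / x 1, 1] ≠ 0 := by
      intro l h
      apply hx l
      rw [form_one] at h
      unfold form
      have : a l 0 * x 1 - a l 1 * x 0 = x 1 * (a l 0 - a l 1 * (x 0 / x 1)) := by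
        field_simp
      rw [this, h, mul_zero]
    have g1 := hC _ hy
    have g2 := h4 a _ hy (vec_ne _)
    rw [logHeight₁_eq_logHeight] at g1
    have e1 : logHeight x = logHeight ![x 0 / x 1, 1] := by
      conv_lhs => rw [e]
      exact logHeight_smul_eq_logHeight _ hx1
    have e2 : cnt S a x = cnt S a ![x 0 / x 1, 1] := by
      conv_lhs => rw [e]
      exact cnt_smul S a hx1 hy
    rw [e1, e2]
    have := le_abs_self C
    linarith

/-- **From the test points to all points.** -/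
theorem three_of_restricted (P : Finset (Pr k)) {A B : k[X]} (hco : IsCoprime A B) {D : ℕ}
    (hD1 : 1 ≤ D) (hA : A.natDegree ≤ D) (hB : B.natDegree ≤ D)
    (hD : A.natDegree = D ∨ B.natDegree = D) (hH : A * B * (A - B) ≠ 0)
    (hdeg : {z : AlgebraicClosure k | z ≠ 0 ∧ z ≠ 1 ∧ aeval z (A * B * (A - B)) = 0}.ncard ≤ D - 1)
    (hA0 : A.eval 0 = 0) (hB0 : B.eval 0 ≠ 0) {δ : ℝ} (hδ : 0 < δ) {n : ℕ} (hn : 1 ≤ n)
    (Y : ℕ → ℝ) (hY : ∀ i, 0 < Y i) (hYt : Tendsto Y atTop atTop)
    {r : ℝ} (hr : ∀ i, Y (i + 1) ≤ r * Y i) (T : Set k)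
    (hT : ∀ y : k, y ^ n + 1 ≠ 0 → B.eval (phi (y ^ n)) ≠ 0 →
      (∀ v : InfinitePlace k, v (fam A B n y) ≤ δ) → (∀ v ∈ P, fv v (fam A B n y) ≤ δ) →
      (∃ i, Y i ≤ logHeight₁ (fam A B n y) ∧ logHeight₁ (fam A B n y) ≤ (1 + δ) * Y i) →
      fam A B n y ∈ T)
    (hI : ∀ ε : ℝ, 0 < ε → ∃ C : ℝ, ∀ x ∈ T, x ≠ 0 → x ≠ 1 →
      (1 - ε) * logHeight₁ x ≤ NQ ∅ three x + C) : Ineq (three : k[X]) := by
  classical
  obtain ⟨M, C0, hC0, hmain⟩ := transfer P hco hD1 hA hB hD hH hdeg hA0 hB0 hδ hn Y hY hYt hr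
  intro ε hε
  obtain ⟨E, hE⟩ : ∃ E : ℝ, E = 4 * D * M + ε + 1 := ⟨_, rfl⟩
  have hE0 : 0 < E := by rw [hE]; positivity
  obtain ⟨C1, h1⟩ := hI (ε / E) (by positivity)
  refine ⟨|C1| + 2 * C0 + |1 - ε| * C0, fun y hy => ?_⟩
  have hN := NQ_nonneg ∅ three y
  have hh : 0 ≤ logHeight₁ y := zero_le_logHeight₁ y
  have a1 := abs_nonneg C1
  have a2 : 0 ≤ |1 - ε| * C0 := by positivity
  have e0 : ((three : k[X]).natDegree : ℝ) - 1 - ε = 1 - ε := by
    have : (three : k[X]).natDegree = 2 := by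
      unfold three
      rw [show (X - 1 : k[X]) = X - C 1 by rw [C_1], natDegree_X_mul (X_sub_C_ne_zero 1),
        natDegree_X_sub_C]
    rw [this]
    push_cast
    ring
  rw [e0]
  rcases le_or_gt (logHeight₁ y) C0 with hyC | hyC
  · have h5 : (1 - ε) * logHeight₁ y ≤ |1 - ε| * C0 :=
      mul_le_mul (le_abs_self _) hyC hh (abs_nonneg _)
    linarith
  obtain ⟨m, hm1, hmM, ⟨g, hg⟩, f1, f2, f3, f4, f5, f6, f7, f8, f9⟩ := hmain y hyC
  have hfam : fam A B m y = fam A B n (y ^ g) := by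
    unfold fam
    rw [← pow_mul, mul_comm g n, ← hg]
  have hpow : y ^ m = (y ^ g) ^ n := by rw [← pow_mul, mul_comm g n, ← hg]
  have hx : fam A B m y ∈ T := by
    rw [hfam]
    rw [hfam] at f5 f6 f7
    rw [hpow] at f1 f2
    exact hT _ f2 f1 f5 f6 f7
  have g1 := h1 _ hx f3 f4
  have g2 := f9 ∅
  obtain ⟨x, hx'⟩ : ∃ x, x = fam A B m y := ⟨_, rfl⟩
  rw [← hx'] at g1 g2 f8
  obtain ⟨η, hη⟩ : ∃ η : ℝ, η = ε / E := ⟨_, rfl⟩
  rw [← hη] at g1
  have hη0 : 0 < η := by rw [hη]; positivity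
  have hη1 : η ≤ 1 := by
    rw [hη, div_le_one hE0, hE]
    have : (0 : ℝ) ≤ 4 * D * M := by positivity
    linarith
  have hmR : (m : ℝ) ≤ M := by exact_mod_cast hmM
  have hηm : 4 * D * m * η ≤ ε := by
    have h5 : (4 * D * m : ℝ) ≤ E := by
      rw [hE]
      have : (4 * D * m : ℝ) ≤ 4 * D * M := mul_le_mul_of_nonneg_left hmR (by positivity)
      linarith
    calc 4 * D * m * η ≤ E * η := mul_le_mul_of_nonneg_right h5 hη0.le
      _ = ε := by rw [hη]; field_simp
  have g3 : (1 - η) * (4 * D * m * logHeight₁ y - C0) ≤ (1 - η) * logHeight₁ x :=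
    mul_le_mul_of_nonneg_left (by linarith) (by linarith)
  have g4 : (1 - η) * C0 ≤ C0 := by nlinarith
  have g5 : 4 * D * m * η * logHeight₁ y ≤ ε * logHeight₁ y := mul_le_mul_of_nonneg_right hηm hh
  have g6 := le_abs_self C1
  nlinarith

/-- the number of the points of a thin set -/
theorem count_fam {A B : k[X]} (hco : IsCoprime A B) {D : ℕ} (hD1 : 1 ≤ D)
    (hA : A.natDegree ≤ D) (hB : B.natDegree ≤ D) (hD : A.natDegree = D ∨ B.natDegree = D)
    {n : ℕ} (hn : 1 ≤ n) : ∃ C : ℝ, ∀ H : ℝ, 0 ≤ H →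
      ({x : k | (∃ y : k, y ^ n + 1 ≠ 0 ∧ B.eval (phi (y ^ n)) ≠ 0 ∧ x = fam A B n y) ∧
        logHeight₁ x ≤ H}.Finite ∧
      ({x : k | (∃ y : k, y ^ n + 1 ≠ 0 ∧ B.eval (phi (y ^ n)) ≠ 0 ∧ x = fam A B n y) ∧
        logHeight₁ x ≤ H}.ncard : ℝ) ≤ C * Real.exp (H / (D * n))) := by
  classical
  obtain ⟨C2, hC2, h2⟩ := phi_height (k := k)
  obtain ⟨C3, hC3, h3⟩ := height_rat hco hD1 hA hB hD
  obtain ⟨C5, hC5, h5⟩ := Pool.Agent.N753.LS.count_all k (δ := 2) (by norm_num)
  have hD0 : (0 : ℝ) < D := by exact_mod_cast hD1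
  have hn0 : (0 : ℝ) < n := by exact_mod_cast hn
  refine ⟨C5 * Real.exp ((C3 + D * C2) / (D * n)), fun H hH => ?_⟩
  obtain ⟨U, hU⟩ : ∃ U : ℝ, U = (H + (C3 + D * C2)) / (4 * (D * n)) := ⟨_, rfl⟩
  have hU0 : 0 ≤ U := by rw [hU]; positivity
  have hfin : {y : k | logHeight₁ y ≤ U}.Finite := by
    refine (NumberField.finite_setOfPred_mulHeight₁_le (K := k) (Real.exp U)).subset ?_
    intro y hy
    have hy' : logHeight₁ y ≤ U := hy
    show mulHeight₁ y ≤ Real.exp U
    rw [logHeight₁_eq_log_mulHeight₁, Real.log_le_iff_le_exp (mulHeight₁_pos y)] at hy'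
    exact hy'
  have hsub : {x : k | (∃ y : k, y ^ n + 1 ≠ 0 ∧ B.eval (phi (y ^ n)) ≠ 0 ∧ x = fam A B n y) ∧
      logHeight₁ x ≤ H} ⊆ (fun y => fam A B n y) '' {y : k | logHeight₁ y ≤ U} := by
    rintro x ⟨⟨y, hy1, hy2, rfl⟩, hx⟩
    refine ⟨y, ?_, rfl⟩
    show logHeight₁ y ≤ U
    have g1 := (h2 _ hy1).2
    have g2 := (h3 _ hy2).2
    rw [logHeight₁_pow] at g1
    rw [hU, le_div_iff₀ (by positivity)]
    have g3 : logHeight₁ (A.eval (phi (y ^ n)) / B.eval (phi (y ^ n))) ≤ H := hx
    have g4 := mul_le_mul_of_nonneg_left g1 hD0.le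
    nlinarith
  refine ⟨(hfin.image _).subset hsub, ?_⟩
  have g1 := (Set.ncard_le_ncard hsub (hfin.image _)).trans (Set.ncard_image_le hfin)
  have g2 : ({y : k | logHeight₁ y ≤ U}.ncard : ℝ) ≤ C5 * Real.exp ((2 + 2) * U) := by
    rw [Set.ncard_eq_toFinset_card _ hfin]
    refine h5 U hU0 _ fun y hy => ?_
    rw [Set.Finite.mem_toFinset] at hy
    rw [Pool.Agent.N753.LS.hr_aff]
    exact hy
  refine (le_trans (by exact_mod_cast g1) g2).trans (le_of_eq ?_)
  rw [mul_assoc, ← Real.exp_add]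
  congr 2
  rw [hU]
  field_simp
  ring

end Pool.Agent.V5helper62.SS
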